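import Mathlib

set_option autoImplicit false

namespace Pool.Agent.H219R2.Cyc

open Finset

section

variable {V : Type} [DecidableEq V] (G : SimpleGraph V) [DecidableRel G.Adj]

/-- a cyclic arrangement of `l.length` distinct vertices -/
def CycList (l : List V) : Prop :=
  l.Nodup ∧ List.IsChain G.Adj l ∧ ∀ h : l ≠ [], G.Adj (l.getLast h) (l.head h)

/-- every large subset of `S` has a vertex with many neighbours in a given large subset of `T` -/
def Good (q : ℕ) (η : ℝ) (S T : Finset V) : Prop :=
  ∀ X ⊆ S, ∀ Y ⊆ T, q ≤ X.card → q ≤ Y.card → ∃ x ∈ X, η * Y.card ≤ ((Y.filter (G.Adj x)).card : ℝ)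

variable {ι : Type} [DecidableEq ι]

theorem path_embed (C : ι → Finset V) (hdisj : ∀ i j, i ≠ j → Disjoint (C i) (C j))
    (R : ι → ι → Prop) (q Q : ℕ) (η : ℝ) (hR : ∀ i j, R i j → i ≠ j ∧ Good G q η (C i) (C j))
    (hη : 0 < η) (hqQ : q ≤ Q) (hQ : (q : ℝ) ≤ η * Q) :
    ∀ (L : List ι) (i j : ι) (F : Finset V) (v : V), List.IsChain R (i :: (L ++ [j])) → 
      (∀ r, Q + L.count r ≤ (C r \ F).card) →
      (q ≤ ((C ((L ++ [j]).head (by simp)) \ F).filter (G.Adj v)).card) →
      ∃ P : List V, P.length = L.length ∧ List.IsChain G.Adj (v :: P) ∧ P.Nodup ∧ (∀ x ∈ P, x ∉ F) ∧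
        q ≤ ((C j \ (F ∪ P.toFinset)).filter (G.Adj ((v :: P).getLast (by simp)))).card := by
  intro L
  induction L with
  | nil =>
    intro i j F v hch hroom hv
    refine ⟨[], rfl, by simp, by simp, by simp, ?_⟩
    simpa using hv
  | cons i1 L ih =>
    intro i j F v hch hroom hv
    have hne : L ++ [j] ≠ [] := by simp
    set i2 : ι := (L ++ [j]).head hne with hi2
    have hch1 : List.IsChain R (i1 :: (L ++ [j])) := by
      have := hch
      simp only [List.cons_append] at this
      exact (List.isChain_cons_cons.mp this).2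
    have hR12 : R i1 i2 := by
      rw [← List.cons_head_tail hne] at hch1
      exact (List.isChain_cons_cons.mp hch1).1
    obtain ⟨hne12, hgood⟩ := hR i1 i2 hR12
    simp only [List.cons_append, List.head_cons] at hv
    obtain ⟨x, hx, hxn⟩ := hgood ((C i1 \ F).filter (G.Adj v))
      ((Finset.filter_subset _ _).trans Finset.sdiff_subset) (C i2 \ F) Finset.sdiff_subset hv
      (by have := hroom i2; omega)
    rw [Finset.mem_filter, Finset.mem_sdiff] at hx
    obtain ⟨⟨hxC, hxF⟩, hvx⟩ := hx
    have hsd : C i2 \ (insert x F) = C i2 \ F := by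
      ext z
      simp only [Finset.mem_sdiff, Finset.mem_insert]
      constructor
      · rintro ⟨h1, h2⟩
        exact ⟨h1, fun h => h2 (Or.inr h)⟩
      · rintro ⟨h1, h2⟩
        refine ⟨h1, ?_⟩
        rintro (rfl | h)
        · exact (Finset.disjoint_left.mp (hdisj i1 i2 hne12)) hxC h1
        · exact h2 h
    obtain ⟨P, hP1, hP2, hP3, hP4, hP5⟩ := ih i1 j (insert x F) x hch1 (by
      intro r
      have h1 := hroom r
      rw [List.count_cons] at h1
      by_cases hr : i1 = r
      · subst hr
        have h2 : C i1 \ (insert x F) = (C i1 \ F).erase x := by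
          ext z
          simp only [Finset.mem_sdiff, Finset.mem_insert, Finset.mem_erase]
          tauto
        rw [h2, Finset.card_erase_of_mem (by rw [Finset.mem_sdiff]; exact ⟨hxC, hxF⟩)]
        simp only [beq_self_eq_true, if_true] at h1
        omega
      · have h2 : C r \ (insert x F) = C r \ F := by
          ext z
          simp only [Finset.mem_sdiff, Finset.mem_insert]
          constructor
          · rintro ⟨h1, h2⟩
            exact ⟨h1, fun h => h2 (Or.inr h)⟩
          · rintro ⟨h1, h2⟩
            refine ⟨h1, ?_⟩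
            rintro (rfl | h)
            · exact (Finset.disjoint_left.mp (hdisj i1 r hr)) hxC h1
            · exact h2 h
        rw [h2]
        omega) (by
      have h3 : (Q : ℝ) ≤ (C i2 \ F).card := by
        have := hroom i2
        exact_mod_cast (by omega : Q ≤ (C i2 \ F).card)
      have h4 : (q : ℝ) ≤ (((C i2 \ F).filter (G.Adj x)).card : ℝ) :=
        (hQ.trans (mul_le_mul_of_nonneg_left h3 hη.le)).trans hxn
      have h5 : q ≤ ((C i2 \ F).filter (G.Adj x)).card := by exact_mod_cast h4
      rw [← hsd] at h5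
      exact h5)
    refine ⟨x :: P, by simp [hP1], ?_, ?_, ?_, ?_⟩
    · exact List.isChain_cons_cons.mpr ⟨hvx, hP2⟩
    · rw [List.nodup_cons]
      exact ⟨fun h => hP4 x h (Finset.mem_insert_self _ _), hP3⟩
    · intro z hz
      rcases List.mem_cons.mp hz with rfl | hz
      · exact hxF
      · exact fun h => hP4 z hz (Finset.mem_insert_of_mem h)
    · have h6 : F ∪ (x :: P).toFinset = insert x F ∪ P.toFinset := by
        ext z
        simp only [Finset.mem_union, List.toFinset_cons, Finset.mem_insert, List.mem_toFinset]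
        tauto
      rw [h6, List.getLast_cons (by simp)]
      exact hP5

theorem cycle_embed (C : ι → Finset V) (hdisj : ∀ i j, i ≠ j → Disjoint (C i) (C j))
    (R : ι → ι → Prop) (hsymm : ∀ i j, R i j → R j i) (q Q : ℕ) (η : ℝ)
    (hR : ∀ i j, R i j → i ≠ j ∧ Good G q η (C i) (C j))
    (hη : 0 < η) (hq1 : 1 ≤ q) (hqQ : q ≤ Q) (hQ : (2 * q : ℝ) ≤ η * Q)
    (L : List ι) (i a z : ι) (hch : List.IsChain R (i :: (L ++ [a]))) (haz : R a z) (hzi : R z i)
    (hroom : ∀ r, Q + q + 1 + L.count r ≤ (C r).card) :
    ∃ l : List V, l.length = L.length + 3 ∧ CycList G l := by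
  have hne : L ++ [a] ≠ [] := by simp
  set i1 : ι := (L ++ [a]).head hne with hi1
  have hRi1 : R i i1 := by
    rw [← List.cons_head_tail hne] at hch
    exact (List.isChain_cons_cons.mp hch).1
  obtain ⟨hnei1, hg1⟩ := hR i i1 hRi1
  obtain ⟨hneiz, hg2⟩ := hR i z (hsymm _ _ hzi)
  obtain ⟨hneaz, hg3⟩ := hR a z haz
  have hcard : ∀ r, Q + q + 1 ≤ (C r).card := fun r => by have := hroom r; omega
  -- choice of v0
  obtain ⟨v0, hv0C, hv01, hv02⟩ : ∃ v ∈ C i, η * (C i1).card ≤ (((C i1).filter (G.Adj v)).card : ℝ) ∧
      η * (C z).card ≤ (((C z).filter (G.Adj v)).card : ℝ) := by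
    by_contra hcon
    push Not at hcon
    set B1 := (C i).filter fun v => (((C i1).filter (G.Adj v)).card : ℝ) < η * (C i1).card with hB1
    set B2 := (C i).filter fun v => (((C z).filter (G.Adj v)).card : ℝ) < η * (C z).card with hB2
    have h1 : B1.card < q := by
      by_contra h
      push Not at h
      obtain ⟨x, hx, hx2⟩ := hg1 B1 (Finset.filter_subset _ _) (C i1) (Finset.Subset.refl _) h
        (by have := hcard i1; omega)
      rw [hB1, Finset.mem_filter] at hx
      linarith [hx.2]
    have h2 : B2.card < q := by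
      by_contra h
      push Not at h
      obtain ⟨x, hx, hx2⟩ := hg2 B2 (Finset.filter_subset _ _) (C z) (Finset.Subset.refl _) h
        (by have := hcard z; omega)
      rw [hB2, Finset.mem_filter] at hx
      linarith [hx.2]
    have h3 : C i ⊆ B1 ∪ B2 := by
      intro v hv
      rw [Finset.mem_union, hB1, hB2, Finset.mem_filter, Finset.mem_filter]
      by_cases h : η * (C i1).card ≤ (((C i1).filter (G.Adj v)).card : ℝ)
      · exact Or.inr ⟨hv, hcon v hv h⟩
      · exact Or.inl ⟨hv, not_le.mp h⟩
    have h4 := (Finset.card_le_card h3).trans (Finset.card_union_le _ _)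
    have h5 := hcard i
    omega
  have hQr : ∀ r, (2 * q : ℝ) ≤ η * (C r).card := by
    intro r
    refine hQ.trans (mul_le_mul_of_nonneg_left ?_ hη.le)
    have := hcard r
    exact_mod_cast (by omega : Q ≤ (C r).card)
  have hZ0 : q ≤ ((C z).filter (G.Adj v0)).card := by
    have h1 : (2 * q : ℝ) ≤ (((C z).filter (G.Adj v0)).card : ℝ) := (hQr z).trans hv02
    have h2 : 2 * q ≤ ((C z).filter (G.Adj v0)).card := by exact_mod_cast h1
    omega
  obtain ⟨Z, hZsub, hZcard⟩ := Finset.exists_subset_card_eq hZ0
  set F : Finset V := insert v0 Z with hF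
  have hFcard : F.card ≤ q + 1 := (Finset.card_insert_le _ _).trans (by omega)
  obtain ⟨P, hP1, hP2, hP3, hP4, hP5⟩ := path_embed G C hdisj R q Q η hR hη hqQ
    (by nlinarith [hQ, (Nat.cast_nonneg q : (0:ℝ) ≤ q)]) L i a F v0 hch (by
      intro r
      have h1 := hroom r
      have h2 := Finset.le_card_sdiff F (C r)
      omega) (by
      have h1 : (2 * q : ℝ) ≤ (((C i1).filter (G.Adj v0)).card : ℝ) := (hQr i1).trans hv01
      have h2 : 2 * q ≤ ((C i1).filter (G.Adj v0)).card := by exact_mod_cast h1
      have h3 : ((C i1).filter (G.Adj v0)) \ Z ⊆ ((C i1 \ F).filter (G.Adj v0)) := by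
        intro x hx
        rw [Finset.mem_sdiff, Finset.mem_filter] at hx
        rw [Finset.mem_filter, Finset.mem_sdiff, hF, Finset.mem_insert]
        refine ⟨⟨hx.1.1, ?_⟩, hx.1.2⟩
        rintro (rfl | h)
        · exact G.loopless.irrefl _ hx.1.2
        · exact hx.2 h
      have h4 := Finset.card_le_card h3
      have h5 := Finset.le_card_sdiff Z ((C i1).filter (G.Adj v0))
      have h6 : q ≤ ((C i1 \ F).filter (G.Adj v0)).card := by omega
      exact h6)
  obtain ⟨x, hx, hxz⟩ := hg3 ((C a \ (F ∪ P.toFinset)).filter (G.Adj ((v0 :: P).getLast (by simp))))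
    ((Finset.filter_subset _ _).trans Finset.sdiff_subset) Z
    (hZsub.trans (Finset.filter_subset _ _)) hP5 hZcard.ge
  have hpos : 0 < (Z.filter (G.Adj x)).card := by
    have h1 : (0:ℝ) < η * Z.card := by
      rw [hZcard]
      have : (1:ℝ) ≤ q := by exact_mod_cast hq1
      positivity
    have h2 : (0:ℝ) < ((Z.filter (G.Adj x)).card : ℝ) := lt_of_lt_of_le h1 hxz
    exact_mod_cast h2
  obtain ⟨z0, hz0⟩ := Finset.card_pos.mp hpos
  rw [Finset.mem_filter] at hz0
  obtain ⟨hz0Z, hxz0⟩ := hz0
  rw [Finset.mem_filter, Finset.mem_sdiff, Finset.mem_union, List.mem_toFinset] at hx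
  obtain ⟨⟨hxC, hxFP⟩, hwx⟩ := hx
  push Not at hxFP
  have hv0z : G.Adj v0 z0 := (Finset.mem_filter.mp (hZsub hz0Z)).2
  refine ⟨v0 :: (P ++ [x, z0]), by simp [hP1], ?_, ?_, ?_⟩
  · rw [List.nodup_cons, List.nodup_append]
    refine ⟨?_, hP3, ?_, ?_⟩
    · rw [List.mem_append]
      rintro (h | h)
      · exact hP4 v0 h (Finset.mem_insert_self _ _)
      · simp only [List.mem_cons, List.not_mem_nil, or_false] at h
        rcases h with h | h
        · exact hxFP.1 (h ▸ Finset.mem_insert_self _ _)
        · exact G.loopless.irrefl v0 (by rw [← h] at hv0z; exact hv0z)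
    · simp only [List.nodup_cons, List.mem_cons, List.not_mem_nil, or_false, not_false_eq_true,
        List.nodup_nil, and_true]
      rintro rfl
      exact G.loopless.irrefl _ hxz0
    · intro y hy w hw
      simp only [List.mem_cons, List.not_mem_nil, or_false] at hw
      rcases hw with rfl | rfl
      · rintro rfl; exact hxFP.2 hy
      · rintro rfl; exact hP4 _ hy (Finset.mem_insert_of_mem hz0Z)
  · rw [← List.cons_append, List.isChain_append]
    refine ⟨hP2, ?_, ?_⟩
    · exact List.isChain_cons_cons.mpr ⟨hxz0, by simp⟩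
    · intro u hu w hw
      simp only [List.head?_cons, Option.mem_def, Option.some.injEq] at hw
      subst hw
      rw [List.getLast?_eq_getLast_of_ne_nil (by simp)] at hu
      simp only [Option.mem_def, Option.some.injEq] at hu
      rw [← hu]
      exact hwx
  · intro h
    simp only [List.head_cons]
    have : (v0 :: (P ++ [x, z0])).getLast h = z0 := by
      rw [List.getLast_cons (by simp)]
      simp
    rw [this]
    exact hv0z.symm

theorem cycle_of_walk (C : ι → Finset V) (hdisj : ∀ i j, i ≠ j → Disjoint (C i) (C j))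
    (Γ : SimpleGraph ι) (q Q : ℕ) (η : ℝ)
    (hR : ∀ i j, Γ.Adj i j → Good G q η (C i) (C j))
    (hη : 0 < η) (hq1 : 1 ≤ q) (hqQ : q ≤ Q) (hQ : (2 * q : ℝ) ≤ η * Q)
    (b : ι) (p : Γ.Walk b b) (hlen : 3 ≤ p.length)
    (hroom : ∀ r, Q + q + 1 + p.support.tail.count r ≤ (C r).card) :
    ∃ l : List V, l.length = p.length ∧ CycList G l := by
  have htl : p.support.tail.length = p.length := by
    rw [List.length_tail, SimpleGraph.Walk.length_support]; rfl
  set t := p.support.tail with ht
  have hsup : p.support = b :: t := (SimpleGraph.Walk.cons_tail_support p).symm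
  have hch : List.IsChain Γ.Adj (b :: t) := hsup ▸ p.isChain_adj_support
  have hdl : (t.drop (t.length - 3)).length = 3 := by
    rw [List.length_drop]; omega
  obtain ⟨a, z, b', hd⟩ : ∃ a z b', t.drop (t.length - 3) = [a, z, b'] := by
    match h : t.drop (t.length - 3), hdl with
    | [a, z, b'], _ => exact ⟨a, z, b', rfl⟩
  have hsplit : t = t.take (t.length - 3) ++ [a, z, b'] := by
    rw [← hd, List.take_append_drop]
  set L := t.take (t.length - 3) with hL
  have hlast : b' = b := by
    have h1 : p.support.getLast (by simp) = b := SimpleGraph.Walk.getLast_support p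
    have h2 : p.support.getLast (by simp) = b' := by
      simp only [hsup, hsplit]
      rw [List.getLast_cons (by simp)]
      simp
    rw [← h1, h2]
  subst hlast
  rw [hsplit] at hch
  have hch2 : List.IsChain Γ.Adj ((b' :: (L ++ [a])) ++ [z, b']) := by
    have : (b' :: (L ++ [a])) ++ [z, b'] = b' :: (L ++ [a, z, b']) := by simp
    rw [this]; exact hch
  rw [List.isChain_append] at hch2
  obtain ⟨hc1, hc2, hc3⟩ := hch2
  have haz : Γ.Adj a z := by
    apply hc3 a _ z (by simp)
    rw [List.getLast?_eq_getLast_of_ne_nil (by simp)]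
    simp
  have hzb : Γ.Adj z b' := (List.isChain_cons_cons.mp hc2).1
  have hLlen : L.length + 3 = p.length := by
    have := congrArg List.length hsplit
    rw [List.length_append] at this
    simp only [List.length_cons, List.length_nil] at this
    omega
  obtain ⟨l, hl1, hl2⟩ := cycle_embed G C hdisj Γ.Adj (fun i j h => h.symm) q Q η
    (fun i j h => ⟨h.ne, hR i j h⟩) hη hq1 hqQ hQ L b' a z hc1 haz hzb (by
      intro r
      have h1 := hroom r
      have h2 : L.count r ≤ t.count r := by
        rw [hsplit, List.count_append]; omega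
      omega)
  exact ⟨l, by omega, hl2⟩

omit [DecidableEq V] [DecidableRel G.Adj] in
theorem contained_of_cycList (l : List V) (hl : 3 ≤ l.length) (h : CycList G l) :
    (SimpleGraph.cycleGraph l.length).IsContained G := by
  obtain ⟨hnd, hch, hlast⟩ := h
  obtain ⟨m, hm⟩ : ∃ m, l.length = m + 2 := ⟨l.length - 2, by omega⟩
  have hne : l ≠ [] := by rintro rfl; simp at hl
  have hget : ∀ (j : ℕ) (hj : j + 1 < l.length), G.Adj (l[j]) (l[j+1]) := by
    intro j hj
    exact (List.isChain_iff_getElem.mp hch) j hj
  have key : (SimpleGraph.cycleGraph (m + 2)).IsContained G := by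
    refine ⟨⟨⟨fun i => l[i.val]'(by omega), ?_⟩, ?_⟩⟩
    · have hadj : ∀ i : Fin (m + 2), G.Adj (l[i.val]'(by omega)) (l[(i+1).val]'(by have := (i+1).isLt; omega)) := by
        intro i
        by_cases c : i.val = m + 1
        · have hi : i = Fin.last _ := Fin.ext (by simp [c])
          have h1 : (i + 1 : Fin (m+2)) = 0 := by rw [hi]; exact Fin.last_add_one _
          have h2 := hlast hne
          rw [List.getLast_eq_getElem, List.head_eq_getElem] at h2
          have e1 : l[i.val]'(by omega) = l[l.length - 1]'(by omega) := by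
            congr 1; omega
          have e2 : l[(i+1 : Fin (m+2)).val]'(by have := (i+1).isLt; omega) = l[0]'(by omega) := by
            congr 1; rw [h1]; rfl
          rw [e1, e2]
          exact h2
        · have h1 : (i + 1 : Fin (m+2)).val = i.val + 1 := by
            rw [Fin.val_add_one_of_lt]
            rw [Fin.lt_def]; simp; omega
          have e2 : l[(i+1 : Fin (m+2)).val]'(by have := (i+1).isLt; omega) = l[i.val + 1]'(by omega) := by
            congr 1
          rw [e2]
          exact hget i.val (by omega)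
      intro a b hab
      rw [SimpleGraph.cycleGraph_adj] at hab
      rcases hab with hab | hab
      · rw [sub_eq_iff_eq_add'] at hab
        subst hab
        exact (hadj b).symm
      · rw [sub_eq_iff_eq_add'] at hab
        subst hab
        exact hadj a
    · intro i j hij
      have : l[i.val]'(by omega) = l[j.val]'(by omega) := hij
      rw [List.Nodup.getElem_inj_iff hnd] at this
      exact Fin.ext this
  rw [hm]
  exact key

end

end Pool.Agent.H219R2.Cyc
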