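import Mathlib
import Pool.Agent.H219R2.Cyc.Embed

set_option autoImplicit false

namespace Pool.Agent.H219R2.Cyc

open Finset

section

variable {V : Type} [DecidableEq V] [Fintype V] (G : SimpleGraph V) [DecidableRel G.Adj]

theorem exists_mem_not_mem (A F : Finset V) (h : F.card < A.card) : ∃ x ∈ A, x ∉ F := by
  by_contra hcon
  push Not at hcon
  exact absurd (Finset.card_le_card hcon) (by omega)

/-- common neighbours -/
def com (u v : V) : Finset V := Finset.univ.filter fun w => G.Adj u w ∧ G.Adj w v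

theorem greedy_path (T : Finset V) (M : ℕ) (hT : M ≤ T.card)
    (hcom : ∀ u ∈ T, ∀ v ∈ T, M ≤ (com G u v).card) :
    ∀ (j : ℕ) (u v : V) (F : Finset V), u ∈ T → v ∈ T → u ≠ v → u ∉ F → v ∉ F →
      F.card + 2 * j + 4 ≤ M →
      ∃ L : List V, L.length = 2 * j + 1 ∧ List.IsChain G.Adj (u :: (L ++ [v])) ∧
        (u :: (L ++ [v])).Nodup ∧ ∀ x ∈ L, x ∉ F := by
  intro j
  induction j with
  | zero =>
    intro u v F hu hv huv huF hvF hM
    obtain ⟨w, hw, hwF⟩ := exists_mem_not_mem (com G u v) F (by have := hcom u hu v hv; omega)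
    rw [com, Finset.mem_filter] at hw
    obtain ⟨-, h1, h2⟩ := hw
    refine ⟨[w], rfl, ?_, ?_, ?_⟩
    · simp [h1, h2]
    · simp [h1.ne, h2.ne, huv]
    · simpa using hwF
  | succ j ih =>
    intro u v F hu hv huv huF hvF hM
    obtain ⟨t, ht, htF⟩ := exists_mem_not_mem T (insert u (insert v F)) (by
      have h1 := Finset.card_insert_le u (insert v F)
      have h2 := Finset.card_insert_le v F
      omega)
    simp only [Finset.mem_insert, not_or] at htF
    obtain ⟨htu, htv, htF⟩ := htF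
    obtain ⟨w, hw, hwF⟩ := exists_mem_not_mem (com G u t) (insert v F) (by
      have h1 := Finset.card_insert_le v F
      have := hcom u hu t ht; omega)
    rw [com, Finset.mem_filter] at hw
    obtain ⟨-, h1, h2⟩ := hw
    simp only [Finset.mem_insert, not_or] at hwF
    obtain ⟨hwv, hwF⟩ := hwF
    obtain ⟨L, hL1, hL2, hL3, hL4⟩ := ih t v (insert u (insert w F)) ht hv htv
      (by simp only [Finset.mem_insert, not_or]; exact ⟨htu, h2.ne.symm, htF⟩)
      (by simp only [Finset.mem_insert, not_or]; exact ⟨huv.symm, Ne.symm hwv, hvF⟩)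
      (by
        have h1 := Finset.card_insert_le u (insert w F)
        have h2 := Finset.card_insert_le w F
        omega)
    have hLu : u ∉ L := fun h => hL4 u h (by simp)
    have hLw : w ∉ L := fun h => hL4 w h (by simp)
    refine ⟨w :: t :: L, by simp [hL1]; ring, ?_, ?_, ?_⟩
    · simp only [List.cons_append, List.isChain_cons_cons]
      exact ⟨h1, h2, hL2⟩
    · simp only [List.cons_append, List.nodup_cons] at hL3 ⊢
      refine ⟨?_, ?_, hL3⟩
      · simp only [List.mem_cons, List.mem_append, List.not_mem_nil, or_false, not_or]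
        exact ⟨h1.ne, Ne.symm htu, hLu, huv⟩
      · simp only [List.mem_cons, List.mem_append, List.not_mem_nil, or_false, not_or]
        exact ⟨h2.ne, hLw, hwv⟩
    · intro x hx
      simp only [List.mem_cons] at hx
      rcases hx with rfl | rfl | hx
      · exact hwF
      · exact htF
      · exact fun h => hL4 x hx (by simp [h])

theorem greedy_even (T : Finset V) (M : ℕ) (hT : M ≤ T.card)
    (hcom : ∀ u ∈ T, ∀ v ∈ T, M ≤ (com G u v).card) (j : ℕ) (hj : 2 * j + 5 ≤ M) :
    ∃ l : List V, l.length = 2 * j + 4 ∧ CycList G l := by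
  obtain ⟨u, hu, -⟩ := exists_mem_not_mem T ∅ (by rw [Finset.card_empty]; omega)
  obtain ⟨v, hv, hvu⟩ := exists_mem_not_mem T {u} (by rw [Finset.card_singleton]; omega)
  have huv : u ≠ v := fun h => hvu (by simp [h])
  obtain ⟨w, hw, -⟩ := exists_mem_not_mem (com G u v) ∅ (by
    have := hcom u hu v hv; rw [Finset.card_empty]; omega)
  rw [com, Finset.mem_filter] at hw
  obtain ⟨-, h1, h2⟩ := hw
  obtain ⟨L, hL1, hL2, hL3, hL4⟩ := greedy_path G T M hT hcom j u v {w} hu hv huv
    (by simpa using h1.ne) (by simpa using h2.ne.symm) (by rw [Finset.card_singleton]; omega)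
  have hLw : w ∉ L := fun h => hL4 w h (by simp)
  refine ⟨w :: u :: (L ++ [v]), by simp [hL1], ?_, ?_, ?_⟩
  · rw [List.nodup_cons]
    refine ⟨?_, hL3⟩
    simp only [List.mem_cons, List.mem_append, List.not_mem_nil, or_false, not_or]
    exact ⟨h1.ne.symm, hLw, h2.ne⟩
  · simp only [List.isChain_cons_cons]
    exact ⟨h1.symm, hL2⟩
  · intro h
    have : (w :: u :: (L ++ [v])).getLast h = v := by
      rw [List.getLast_cons (by simp), List.getLast_cons (by simp)]
      simp
    rw [this]
    exact h2.symm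

theorem greedy_odd (T : Finset V) (M : ℕ) (hT : M ≤ T.card)
    (hcom : ∀ u ∈ T, ∀ v ∈ T, M ≤ (com G u v).card) (a b : V) (hab : G.Adj a b)
    (ha : 3 ≤ (T.filter (G.Adj a)).card) (hb : 3 ≤ (T.filter (G.Adj b)).card)
    (j : ℕ) (hj : 2 * j + 6 ≤ M) :
    ∃ l : List V, l.length = 2 * j + 5 ∧ CycList G l := by
  obtain ⟨u, hu, hub⟩ := exists_mem_not_mem (T.filter (G.Adj a)) {b} (by
    rw [Finset.card_singleton]; omega)
  rw [Finset.mem_filter] at hu
  have hub : u ≠ b := by simpa using hub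
  obtain ⟨v, hv, hvu⟩ := exists_mem_not_mem (T.filter (G.Adj b)) {a, u} (by
    have := Finset.card_le_two (a := a) (b := u); omega)
  rw [Finset.mem_filter] at hv
  simp only [Finset.mem_insert, Finset.mem_singleton, not_or] at hvu
  obtain ⟨hva, hvu⟩ := hvu
  obtain ⟨L, hL1, hL2, hL3, hL4⟩ := greedy_path G T M hT hcom j u v {a, b} hu.1 hv.1 (Ne.symm hvu)
    (by simp only [Finset.mem_insert, Finset.mem_singleton, not_or]; exact ⟨hu.2.ne.symm, hub⟩)
    (by simp only [Finset.mem_insert, Finset.mem_singleton, not_or]; exact ⟨hva, hv.2.ne.symm⟩)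
    (by have := Finset.card_le_two (a := a) (b := b); omega)
  have hLa : a ∉ L := fun h => hL4 a h (by simp)
  have hLb : b ∉ L := fun h => hL4 b h (by simp)
  refine ⟨b :: a :: u :: (L ++ [v]), by simp [hL1], ?_, ?_, ?_⟩
  · rw [List.nodup_cons, List.nodup_cons]
    refine ⟨?_, ?_, hL3⟩
    · simp only [List.mem_cons, List.mem_append, List.not_mem_nil, or_false, not_or]
      exact ⟨hab.ne.symm, Ne.symm hub, hLb, hv.2.ne⟩
    · simp only [List.mem_cons, List.mem_append, List.not_mem_nil, or_false, not_or]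
      exact ⟨hu.2.ne, hLa, Ne.symm hva⟩
  · simp only [List.isChain_cons_cons]
    exact ⟨hab.symm, hu.2, hL2⟩
  · intro h
    have : (b :: a :: u :: (L ++ [v])).getLast h = v := by
      rw [List.getLast_cons (by simp), List.getLast_cons (by simp), List.getLast_cons (by simp)]
      simp
    rw [this]
    exact hv.2.symm

theorem cycles_of_dense (T1 T2 : Finset V) (M : ℕ) (hT1 : M ≤ T1.card) (hT2 : M ≤ T2.card)
    (hcom1 : ∀ u ∈ T1, ∀ v ∈ T1, M ≤ (com G u v).card)
    (hcom2 : ∀ u ∈ T2, ∀ v ∈ T2, M ≤ (com G u v).card)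
    (a b c : V) (hab : G.Adj a b) (hbc : G.Adj b c) (hca : G.Adj c a)
    (ha : 3 ≤ (T1.filter (G.Adj a)).card ∨ 3 ≤ (T2.filter (G.Adj a)).card)
    (hb : 3 ≤ (T1.filter (G.Adj b)).card ∨ 3 ≤ (T2.filter (G.Adj b)).card)
    (hc : 3 ≤ (T1.filter (G.Adj c)).card ∨ 3 ≤ (T2.filter (G.Adj c)).card)
    (ℓ : ℕ) (h3 : 3 ≤ ℓ) (hℓ : ℓ + 1 ≤ M) : ∃ l : List V, l.length = ℓ ∧ CycList G l := by
  rcases Nat.even_or_odd' ℓ with ⟨j, hj | hj⟩
  · obtain ⟨l, hl, hl2⟩ := greedy_even G T1 M hT1 hcom1 (j - 2) (by omega)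
    exact ⟨l, by omega, hl2⟩
  · by_cases hℓ3 : ℓ = 3
    · refine ⟨[a, b, c], by simp [hℓ3], ?_, ?_, ?_⟩
      · simp [hab.ne, hbc.ne, hca.ne.symm]
      · simp [hab, hbc]
      · intro h; simpa using hca
    · have key : ∃ l : List V, l.length = 2 * (j - 2) + 5 ∧ CycList G l := by
        have hM : 2 * (j - 2) + 6 ≤ M := by omega
        rcases ha with ha | ha
        · rcases hb with hb | hb
          · exact greedy_odd G T1 M hT1 hcom1 a b hab ha hb _ hM
          · rcases hc with hc | hc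
            · exact greedy_odd G T1 M hT1 hcom1 c a hca hc ha _ hM
            · exact greedy_odd G T2 M hT2 hcom2 b c hbc hb hc _ hM
        · rcases hb with hb | hb
          · rcases hc with hc | hc
            · exact greedy_odd G T1 M hT1 hcom1 b c hbc hb hc _ hM
            · exact greedy_odd G T2 M hT2 hcom2 c a hca hc ha _ hM
          · exact greedy_odd G T2 M hT2 hcom2 a b hab ha hb _ hM
      obtain ⟨l, hl, hl2⟩ := key
      exact ⟨l, by omega, hl2⟩

end

end Pool.Agent.H219R2.Cyc
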