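import Mathlib
import Pool.Agent.Helper91.EC.Spec

set_option autoImplicit false

namespace Pool.Agent.H219R2.Cyc

open Finset Pool.Agent.Helper91.EC

section

variable {V : Type} [Fintype V]

theorem nb_nonneg (G : SimpleGraph V) (x : V → ℝ) (hx : ∀ v, 0 ≤ x v) (v : V) : 0 ≤ nb G x v := by
  unfold nb
  exact Finset.sum_nonneg fun w _ => by split_ifs; exacts [hx w, le_rfl]

theorem lam_nonneg [Nonempty V] (G : SimpleGraph V) : 0 ≤ lam G := by
  obtain ⟨x, hx0, hxne, hx, -⟩ := lam_spec G
  obtain ⟨v, hv⟩ := Function.ne_iff.mp hxne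
  have hpos : 0 < x v := lt_of_le_of_ne (hx0 v) (by simpa using hv.symm)
  have h1 := nb_nonneg G x hx0 v
  rw [hx v] at h1
  exact nonneg_of_mul_nonneg_left h1 hpos

open Classical in
theorem exists_two_step [Nonempty V] (G : SimpleGraph V) :
    ∃ v, lam G ^ 2 ≤ ∑ w, if G.Adj v w then (∑ u, if G.Adj w u then (1:ℝ) else 0) else 0 := by
  obtain ⟨x, hx0, hxne, hx, -⟩ := lam_spec G
  obtain ⟨v, -, hv⟩ := Finset.exists_max_image Finset.univ x Finset.univ_nonempty
  have hpos : 0 < x v := by
    obtain ⟨u, hu⟩ := Function.ne_iff.mp hxne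
    have hpu : 0 < x u := lt_of_le_of_ne (hx0 u) (by simpa using hu.symm)
    exact lt_of_lt_of_le hpu (hv u (Finset.mem_univ _))
  refine ⟨v, ?_⟩
  have h1 : lam G ^ 2 * x v ≤
      (∑ w, if G.Adj v w then (∑ u, if G.Adj w u then (1:ℝ) else 0) else 0) * x v := by
    calc lam G ^ 2 * x v = lam G * nb G x v := by rw [hx v]; ring
      _ = ∑ w, if G.Adj v w then lam G * x w else 0 := by
          unfold nb; rw [Finset.mul_sum]
          exact Finset.sum_congr rfl fun w _ => by split_ifs <;> simp
      _ = ∑ w, if G.Adj v w then nb G x w else 0 := by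
          exact Finset.sum_congr rfl fun w _ => by rw [hx w]
      _ ≤ ∑ w, if G.Adj v w then (∑ u, if G.Adj w u then (1:ℝ) else 0) * x v else 0 := by
          refine Finset.sum_le_sum fun w _ => ?_
          split_ifs
          · unfold nb
            rw [Finset.sum_mul]
            refine Finset.sum_le_sum fun u _ => ?_
            split_ifs
            · rw [one_mul]; exact hv u (Finset.mem_univ _)
            · simp
          · exact le_rfl
      _ = _ := by
          rw [Finset.sum_mul]
          exact Finset.sum_congr rfl fun w _ => by split_ifs <;> simp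
  exact le_of_mul_le_mul_right h1 hpos

/-- the subgraph of `G` spanned by the edges inside `H`, on the same vertex type -/
def ind (G : SimpleGraph V) (H : Finset V) : SimpleGraph V where
  Adj v w := G.Adj v w ∧ v ∈ H ∧ w ∈ H
  symm := ⟨fun _ _ h => ⟨h.1.symm, h.2.2, h.2.1⟩⟩
  loopless := ⟨fun _ h => G.loopless.irrefl _ h.1⟩

omit [Fintype V] in
theorem ind_adj (G : SimpleGraph V) (H : Finset V) (v w : V) :
    (ind G H).Adj v w ↔ G.Adj v w ∧ v ∈ H ∧ w ∈ H := Iff.rfl

theorem ind_univ (G : SimpleGraph V) : ind G Finset.univ = G := by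
  ext v w; simp [ind]

/-- a triangle-free graph living on `H` has `λ² ≤ ⌊|H|²/4⌋` -/
theorem lam_sq_le_of_triangleFree [Nonempty V] (G : SimpleGraph V) (H : Finset V)
    (hG : ∀ v w, G.Adj v w → v ∈ H ∧ w ∈ H)
    (htf : ∀ a b c, G.Adj a b → G.Adj b c → G.Adj c a → False) :
    lam G ^ 2 ≤ ((H.card ^ 2 / 4 : ℕ) : ℝ) := by
  classical
  obtain ⟨v, hv⟩ := exists_two_step G
  set N := H.filter (G.Adj v) with hN
  have h1 : (∑ w, if G.Adj v w then (∑ u, if G.Adj w u then (1:ℝ) else 0) else 0) ≤
      ((N.card * (H.card - N.card) : ℕ) : ℝ) := by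
    have e1 : (∑ w, if G.Adj v w then (∑ u, if G.Adj w u then (1:ℝ) else 0) else 0) =
        ∑ w ∈ N, (∑ u, if G.Adj w u then (1:ℝ) else 0) := by
      rw [← Finset.sum_filter]
      apply Finset.sum_congr _ fun _ _ => rfl
      ext w
      simp only [Finset.mem_filter, Finset.mem_univ, true_and, hN]
      exact ⟨fun h => ⟨(hG v w h).2, h⟩, fun h => h.2⟩
    rw [e1, Nat.cast_mul, ← nsmul_eq_mul]
    apply Finset.sum_le_card_nsmul
    intro w hw
    rw [hN, Finset.mem_filter] at hw
    have e2 : (∑ u, if G.Adj w u then (1:ℝ) else 0) = ((Finset.univ.filter (G.Adj w)).card : ℝ) := by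
      rw [Finset.sum_boole]
    rw [e2]
    have h3 : Finset.univ.filter (G.Adj w) ⊆ H \ N := by
      intro u hu
      rw [Finset.mem_filter] at hu
      rw [Finset.mem_sdiff]
      refine ⟨(hG w u hu.2).2, fun h => ?_⟩
      rw [hN, Finset.mem_filter] at h
      exact htf v w u hw.2 hu.2 h.2.symm
    have h4 := Finset.card_le_card h3
    rw [Finset.card_sdiff_of_subset (Finset.filter_subset _ _)] at h4
    exact_mod_cast h4
  refine hv.trans (h1.trans ?_)
  have h5 : N.card ≤ H.card := Finset.card_le_card (Finset.filter_subset _ _)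
  have h6 : N.card * (H.card - N.card) ≤ H.card ^ 2 / 4 := by
    rw [Nat.le_div_iff_mul_le (by norm_num)]
    obtain ⟨d, hd⟩ := Nat.exists_eq_add_of_le h5
    rw [hd, Nat.add_sub_cancel_left]
    nlinarith [sq_nonneg ((N.card : ℤ) - d), Nat.zero_le N.card, mul_self_nonneg ((N.card : ℤ) - d),
      Nat.mul_self_le_mul_self (Nat.zero_le d), (by
        have : (0:ℤ) ≤ ((N.card : ℤ) - d)^2 := sq_nonneg _
        have h : 4 * ((N.card:ℤ) * d) ≤ ((N.card:ℤ) + d)^2 := by nlinarith
        exact_mod_cast h : 4 * (N.card * d) ≤ (N.card + d)^2)]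
  exact_mod_cast h6

/-- removing a vertex from the support of the Perron vector -/
theorem lam_erase [Nonempty V] [DecidableEq V] (G : SimpleGraph V) (H : Finset V) (v : V)
    (x : V → ℝ) (L : ℝ) (hx : ∀ w, nb (ind G H) x w = L * x w) :
    L * (S2 x - 2 * x v ^ 2) ≤ lam (ind G (H.erase v)) * (S2 x - x v ^ 2) := by
  classical
  have h1 := rayleigh (ind G (H.erase v)) (fun w => if w = v then 0 else x w)
  have h2 : S2 (fun w => if w = v then 0 else x w) = S2 x - x v ^ 2 := by
    unfold S2
    rw [← Finset.sum_erase_add _ _ (Finset.mem_univ v), ← Finset.sum_erase_add (s := Finset.univ)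
      (f := fun w => x w ^ 2) (Finset.mem_univ v)]
    simp only [if_true]
    rw [show ((0:ℝ))^2 = 0 by norm_num, add_zero, add_sub_cancel_right]
    exact Finset.sum_congr rfl fun w hw => by rw [if_neg (Finset.ne_of_mem_erase hw)]
  have h3 : Q (ind G (H.erase v)) (fun w => if w = v then 0 else x w) =
      L * (S2 x - 2 * x v ^ 2) := by
    unfold Q
    have e1 : ∀ w, (if w = v then 0 else x w) * nb (ind G (H.erase v)) (fun w => if w = v then 0 else x w) w
        = (if w = v then 0 else x w) * (nb (ind G H) x w - (if (ind G H).Adj w v then x v else 0)) := by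
      intro w
      by_cases hw : w = v
      · simp [hw]
      · congr 1
        unfold nb
        rw [← Finset.sum_erase_add _ _ (Finset.mem_univ v), ← Finset.sum_erase_add (s := Finset.univ)
          (f := fun u => if (ind G H).Adj w u then x u else 0) (Finset.mem_univ v)]
        simp only [if_true, ite_self, add_zero, add_sub_cancel_right]
        refine Finset.sum_congr rfl fun u hu => ?_
        have hu' := Finset.ne_of_mem_erase hu
        simp only [ind_adj, Finset.mem_erase, hw, hu', ne_eq, not_false_eq_true, true_and, if_false]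
    rw [Finset.sum_congr rfl fun w _ => e1 w]
    have e2 : ∀ w, (if w = v then 0 else x w) * (nb (ind G H) x w - (if (ind G H).Adj w v then x v else 0))
        = (L * x w ^ 2 - x v * (if (ind G H).Adj v w then x w else 0)) -
          (if w = v then L * x v ^ 2 else 0) := by
      intro w
      rw [hx w]
      by_cases hw : w = v
      · subst hw
        simp
      · by_cases ha : (ind G H).Adj w v
        · have ha' := ha.symm
          simp only [hw, ha, ha', if_true, if_false]; ring
        · have ha' : ¬ (ind G H).Adj v w := fun h => ha h.symm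
          simp only [hw, ha, ha', if_false]; ring
    rw [Finset.sum_congr rfl fun w _ => e2 w, Finset.sum_sub_distrib, Finset.sum_sub_distrib,
      ← Finset.mul_sum, ← Finset.mul_sum]
    have e3 : (∑ w, if (ind G H).Adj v w then x w else 0) = L * x v := hx v
    rw [e3, Finset.sum_ite_eq' Finset.univ v]
    simp only [Finset.mem_univ, if_true]
    unfold S2
    ring
  rw [h2, h3] at h1
  exact h1

end

end Pool.Agent.H219R2.Cyc
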