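import Mathlib
import Pool.Agent.H219R2.Cyc.SpecA
import Pool.Agent.H219R2.Cyc.Greedy

set_option autoImplicit false

namespace Pool.Agent.H219R2.Cyc

open Finset Pool.Agent.Helper91.EC

section

variable {V : Type} [Fintype V]

open Classical in
theorem bad_pairs_bound (E : Finset (V × V)) (y : V → ℝ) (D : ℝ) (hB : (E.card : ℝ) ≤ D) :
    ∑ v, ∑ w, (if (v, w) ∈ E then y v * y w else 0) ≤ √D * S2 y := by
  have hD : 0 ≤ D := le_trans (Nat.cast_nonneg _) hB
  have h1 : ∑ v, ∑ w, (if (v, w) ∈ E then y v * y w else 0) =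
      ∑ p : V × V, (if p ∈ E then 1 else 0) * (y p.1 * y p.2) := by
    rw [Fintype.sum_prod_type]
    exact Finset.sum_congr rfl fun v _ => Finset.sum_congr rfl fun w _ => by split_ifs <;> simp
  have h2 := Finset.sum_mul_sq_le_sq_mul_sq (Finset.univ : Finset (V × V))
    (fun p => if p ∈ E then (1:ℝ) else 0) (fun p => y p.1 * y p.2)
  have h3 : ∑ p : V × V, (if p ∈ E then (1:ℝ) else 0) ^ 2 = (E.card : ℝ) := by
    have : ∀ p : V × V, (if p ∈ E then (1:ℝ) else 0) ^ 2 = if p ∈ E then 1 else 0 := fun p => by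
      split_ifs <;> simp
    rw [Finset.sum_congr rfl fun p _ => this p, Finset.sum_ite_mem, Finset.univ_inter]
    simp
  have h4 : ∑ p : V × V, (y p.1 * y p.2) ^ 2 = S2 y ^ 2 := by
    rw [Fintype.sum_prod_type]
    unfold S2
    rw [sq (∑ v, y v ^ 2), Finset.sum_mul_sum]
    exact Finset.sum_congr rfl fun v _ => Finset.sum_congr rfl fun w _ => by ring
  rw [h1]
  rw [h3, h4] at h2
  apply abs_le_of_sq_le_sq' _ (mul_nonneg (Real.sqrt_nonneg _) (S2_nonneg y)) |>.2
  rw [mul_pow, Real.sq_sqrt hD]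
  exact h2.trans (mul_le_mul_of_nonneg_right hB (sq_nonneg _))

theorem cross_bound (p q P R a1 a2 S : ℝ) (hc1 : p ^ 2 ≤ a1 * P) (hc2 : q ^ 2 ≤ a2 * R)
    (hS : P + R ≤ S) (hP : 0 ≤ P) (hR : 0 ≤ R) (ha1 : 0 ≤ a1) (ha2 : 0 ≤ a2) :
    2 * (p * q) ≤ (a1 + a2) / 2 * S := by
  have e1 : (2 * (p * q)) ^ 2 ≤ ((a1 + a2) / 2 * (P + R)) ^ 2 := by
    have e2 : (p * q) ^ 2 ≤ (a1 * P) * (a2 * R) := by
      rw [mul_pow]
      exact mul_le_mul hc1 hc2 (sq_nonneg _) (mul_nonneg ha1 hP)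
    have e3 : 4 * ((a1 * P) * (a2 * R)) ≤ ((a1 + a2) / 2 * (P + R)) ^ 2 := by
      have e4 : 4 * (a1 * a2) ≤ (a1 + a2) ^ 2 := by nlinarith [sq_nonneg (a1 - a2)]
      have e5 : 4 * (P * R) ≤ (P + R) ^ 2 := by nlinarith [sq_nonneg (P - R)]
      have e6 := mul_le_mul e4 e5 (by positivity) (by positivity)
      nlinarith
    nlinarith
  have e7 := abs_le_of_sq_le_sq' e1 (by positivity) |>.2
  exact e7.trans (mul_le_mul_of_nonneg_left hS (by positivity))

open Classical in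
/-- the quadratic form of a nearly bipartite graph -/
theorem Q_near (G : SimpleGraph V) (s H : Finset V) (b : ℝ) (hb : 0 ≤ b) (E : Finset (V × V))
    (hE : ∀ v w, G.Adj v w → (v ∈ s ↔ w ∈ s) → (v, w) ∈ E)
    (hins : (E.card : ℝ) ≤ (b * Fintype.card V) ^ 2) (y : V → ℝ) (hy : ∀ v, 0 ≤ y v) :
    Q (ind G H) y ≤ (H.card / 2 + b * Fintype.card V) * S2 y := by
  set H1 := H.filter (· ∈ s) with hH1
  set H2 := H.filter (· ∉ s) with hH2
  have hbad := bad_pairs_bound E y _ hins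
  rw [Real.sqrt_sq (by positivity)] at hbad
  have h1 : Q (ind G H) y ≤ ∑ v, ∑ w, ((if v ∈ H1 then y v else 0) * (if w ∈ H2 then y w else 0) +
      (if v ∈ H2 then y v else 0) * (if w ∈ H1 then y w else 0) +
      (if (v, w) ∈ E then y v * y w else 0)) := by
    unfold Q nb
    refine Finset.sum_le_sum fun v _ => ?_
    rw [Finset.mul_sum]
    refine Finset.sum_le_sum fun w _ => ?_
    have hvw := mul_nonneg (hy v) (hy w)
    by_cases hadj : (ind G H).Adj v w
    · have hadj' := hadj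
      rw [ind_adj] at hadj'
      obtain ⟨ha, hv, hw⟩ := hadj'
      simp only [hadj, ha, hH1, hH2, Finset.mem_filter, hv, hw, true_and, if_true]
      by_cases c1 : v ∈ s <;> by_cases c2 : w ∈ s
      · simp [c1, c2, hE v w ha (by simp [c1, c2])]
      · simp only [c1, c2, not_true_eq_false, not_false_eq_true, if_true, if_false, mul_zero, add_zero,
          zero_mul, zero_add]
        split_ifs <;> linarith
      · simp only [c1, c2, not_true_eq_false, not_false_eq_true, if_true, if_false, mul_zero, add_zero,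
          zero_mul, zero_add]
        split_ifs <;> linarith
      · simp [c1, c2, hE v w ha (by simp [c1, c2])]
    · simp only [hadj, if_false, mul_zero]
      have e1 : 0 ≤ (if v ∈ H1 then y v else 0) := by split_ifs; exacts [hy v, le_rfl]
      have e2 : 0 ≤ (if w ∈ H2 then y w else 0) := by split_ifs; exacts [hy w, le_rfl]
      have e3 : 0 ≤ (if v ∈ H2 then y v else 0) := by split_ifs; exacts [hy v, le_rfl]
      have e4 : 0 ≤ (if w ∈ H1 then y w else 0) := by split_ifs; exacts [hy w, le_rfl]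
      have e5 : 0 ≤ (if (v, w) ∈ E then y v * y w else 0) := by
        split_ifs; exacts [hvw, le_rfl]
      exact add_nonneg (add_nonneg (mul_nonneg e1 e2) (mul_nonneg e3 e4)) e5
  have h2 : ∑ v, ∑ w, ((if v ∈ H1 then y v else 0) * (if w ∈ H2 then y w else 0) +
      (if v ∈ H2 then y v else 0) * (if w ∈ H1 then y w else 0) +
      (if (v, w) ∈ E then y v * y w else 0)) =
      2 * ((∑ v ∈ H1, y v) * (∑ v ∈ H2, y v)) +
      ∑ v, ∑ w, (if (v, w) ∈ E then y v * y w else 0) := by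
    simp only [Finset.sum_add_distrib, ← Finset.mul_sum, ← Finset.sum_mul, Finset.sum_ite_mem,
      Finset.univ_inter]
    ring
  have hc1 : (∑ v ∈ H1, y v) ^ 2 ≤ H1.card * ∑ v ∈ H1, y v ^ 2 := sq_sum_le_card_mul_sum_sq
  have hc2 : (∑ v ∈ H2, y v) ^ 2 ≤ H2.card * ∑ v ∈ H2, y v ^ 2 := sq_sum_le_card_mul_sum_sq
  have hcard : (H1.card : ℝ) + H2.card = H.card := by
    exact_mod_cast Finset.card_filter_add_card_filter_not (s := H) (· ∈ s)
  have hS : (∑ v ∈ H1, y v ^ 2) + ∑ v ∈ H2, y v ^ 2 ≤ S2 y := by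
    rw [hH1, hH2, Finset.sum_filter_add_sum_filter_not]
    unfold S2
    exact Finset.sum_le_univ_sum_of_nonneg fun v => sq_nonneg _
  have hY1 : 0 ≤ ∑ v ∈ H1, y v ^ 2 := Finset.sum_nonneg fun _ _ => sq_nonneg _
  have hY2 : 0 ≤ ∑ v ∈ H2, y v ^ 2 := Finset.sum_nonneg fun _ _ => sq_nonneg _
  have hs1 : 0 ≤ ∑ v ∈ H1, y v := Finset.sum_nonneg fun v _ => hy v
  have hs2 : 0 ≤ ∑ v ∈ H2, y v := Finset.sum_nonneg fun v _ => hy v
  have hcross : 2 * ((∑ v ∈ H1, y v) * (∑ v ∈ H2, y v)) ≤ H.card / 2 * S2 y := by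
    rw [← hcard]
    exact cross_bound _ _ _ _ _ _ _ hc1 hc2 hS hY1 hY2 (Nat.cast_nonneg _) (Nat.cast_nonneg _)
  calc Q (ind G H) y ≤ _ := h1
    _ = _ := h2
    _ ≤ H.card / 2 * S2 y + b * Fintype.card V * S2 y := add_le_add hcross hbad
    _ = _ := by ring

end

end Pool.Agent.H219R2.Cyc
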