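import Mathlib
import Pool.Agent.H219R2.Cyc.NearBip

set_option autoImplicit false

namespace Pool.Agent.H219R2.Cyc

open Finset Pool.Agent.Helper91.EC

section

variable {ι : Type} [Fintype ι]

open Classical in
/-- a closed triangle-free part carrying almost all the spectral weight forces the whole graph to be
nearly bipartite -/
theorem near_of_triangleFree (Γ : SimpleGraph ι) (K : Finset ι)
    (hcl : ∀ i ∈ K, ∀ j, Γ.Adj i j → j ∈ K)
    (htf : ∀ a ∈ K, ∀ b c, Γ.Adj a b → Γ.Adj b c → Γ.Adj c a → False)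
    (y : ι → ℝ) (hpos : 0 < ∑ i ∈ K, y i ^ 2) (δ : ℝ) (hδ0 : 0 < δ) (hδ : δ ≤ 1 / 20)
    (h : (1 / 2 - δ) * Fintype.card ι * ∑ i ∈ K, y i ^ 2 ≤
      ∑ i ∈ K, ∑ j ∈ K, (if Γ.Adj i j then y i * y j else 0)) :
    ∃ (X : Finset ι) (F : Finset (ι × ι)), (∀ i j, Γ.Adj i j → (i ∈ X ↔ j ∈ X) → (i, j) ∈ F) ∧
      (F.card : ℝ) ≤ 20 * δ * (Fintype.card ι : ℝ) ^ 2 := by
  have hne : Nonempty ι := by
    by_contra hc
    rw [not_nonempty_iff] at hc
    have : ∑ i ∈ K, y i ^ 2 = 0 := Finset.sum_eq_zero fun i _ => (hc.false i).elim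
    linarith
  obtain ⟨k, hk⟩ : ∃ k : ℝ, k = Fintype.card ι := ⟨_, rfl⟩
  have hk0 : 0 < k := by rw [hk]; exact_mod_cast Fintype.card_pos
  rw [← hk] at h ⊢
  -- the spectral radius of the part
  have hlam : (1 / 2 - δ) * k ≤ lam (ind Γ K) := by
    have h1 := rayleigh (ind Γ K) (fun i => if i ∈ K then y i else 0)
    have h2 : S2 (fun i => if i ∈ K then y i else 0) = ∑ i ∈ K, y i ^ 2 := by
      unfold S2
      rw [← Finset.sum_filter_add_sum_filter_not Finset.univ (· ∈ K)]
      rw [Finset.filter_mem_eq_inter, Finset.univ_inter]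
      have e1 : ∑ i ∈ Finset.univ.filter (· ∉ K), (if i ∈ K then y i else 0) ^ 2 = 0 := by
        apply Finset.sum_eq_zero
        intro i hi
        rw [if_neg (Finset.mem_filter.mp hi).2]; norm_num
      rw [e1, add_zero]
      exact Finset.sum_congr rfl fun i hi => by beta_reduce; rw [if_pos hi]
    have h3 : Q (ind Γ K) (fun i => if i ∈ K then y i else 0) =
        ∑ i ∈ K, ∑ j ∈ K, (if Γ.Adj i j then y i * y j else 0) := by
      unfold Q nb
      rw [← Finset.sum_filter_add_sum_filter_not Finset.univ (· ∈ K)]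
      rw [Finset.filter_mem_eq_inter, Finset.univ_inter]
      have e1 : ∑ i ∈ Finset.univ.filter (· ∉ K), ((if i ∈ K then y i else 0) *
          ∑ j, if (ind Γ K).Adj i j then (if j ∈ K then y j else 0) else 0) = 0 := by
        apply Finset.sum_eq_zero
        intro i hi
        rw [if_neg (Finset.mem_filter.mp hi).2, zero_mul]
      rw [e1, add_zero]
      refine Finset.sum_congr rfl fun i hi => ?_
      beta_reduce
      rw [if_pos hi, Finset.mul_sum, ← Finset.sum_filter_add_sum_filter_not Finset.univ (· ∈ K)]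
      rw [Finset.filter_mem_eq_inter, Finset.univ_inter]
      have e2 : ∑ j ∈ Finset.univ.filter (· ∉ K), (y i *
          if (ind Γ K).Adj i j then (if j ∈ K then y j else 0) else 0) = 0 := by
        apply Finset.sum_eq_zero
        intro j hj
        rw [if_neg (Finset.mem_filter.mp hj).2]; simp
      rw [e2, add_zero]
      refine Finset.sum_congr rfl fun j hj => ?_
      rw [if_pos hj, ind_adj]
      simp only [hi, hj, and_true]
      split_ifs <;> simp
    rw [h2, h3] at h1
    exact le_of_mul_le_mul_right (h.trans h1) hpos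
  obtain ⟨t0, ht0⟩ := exists_two_step (ind Γ K)
  set N := Finset.univ.filter ((ind Γ K).Adj t0) with hN
  set dN : ι → ℕ := fun t => (N.filter fun w => (ind Γ K).Adj w t).card with hdN
  have hNind : ∀ i ∈ N, ∀ j ∈ N, ¬ Γ.Adj i j := by
    intro i hi j hj hij
    rw [hN, Finset.mem_filter, ind_adj] at hi hj
    exact htf t0 hi.2.2.1 i j hi.2.1 hij hj.2.1.symm
  have hdeg : (∑ w, if (ind Γ K).Adj t0 w then (∑ u, if (ind Γ K).Adj w u then (1:ℝ) else 0) else 0) =
      ∑ t ∈ Nᶜ, (dN t : ℝ) := by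
    rw [← Finset.sum_filter]
    have e1 : ∀ w ∈ N, (∑ u, if (ind Γ K).Adj w u then (1:ℝ) else 0) =
        ∑ u ∈ Nᶜ, if (ind Γ K).Adj w u then (1:ℝ) else 0 := by
      intro w hw
      symm
      apply Finset.sum_subset (Finset.subset_univ _)
      intro u _ hu
      rw [Finset.mem_compl, not_not] at hu
      rw [if_neg]
      exact fun hwu => hNind w hw u hu hwu.1
    rw [Finset.sum_congr rfl e1, Finset.sum_comm]
    refine Finset.sum_congr rfl fun t _ => ?_
    rw [Finset.sum_boole]
  rw [hdeg] at ht0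
  obtain ⟨p, hp⟩ : ∃ p : ℝ, p = N.card := ⟨_, rfl⟩
  have hp0 : 0 ≤ p := by rw [hp]; exact Nat.cast_nonneg _
  have hpc : ((Nᶜ).card : ℝ) = k - p := by
    rw [Finset.card_compl, Nat.cast_sub (Finset.card_le_univ N), hk, hp]
  have hkp : 0 ≤ k - p := by rw [← hpc]; exact Nat.cast_nonneg _
  have hdNle : ∀ t, (dN t : ℝ) ≤ p := by
    intro t
    rw [hp, hdN]
    exact_mod_cast Finset.card_le_card (Finset.filter_subset _ _)
  have hD1 : (1 / 4 - δ) * k ^ 2 ≤ ∑ t ∈ Nᶜ, (dN t : ℝ) := by
    refine le_trans ?_ ht0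
    have := pow_le_pow_left₀ (mul_nonneg (by linarith : (0:ℝ) ≤ 1 / 2 - δ) hk0.le) hlam 2
    nlinarith [sq_nonneg (δ * k)]
  -- the bad vertices
  set Bad := (Nᶜ).filter fun t => 2 * (dN t : ℝ) ≤ p with hBad
  have hmis : ∑ t ∈ Nᶜ, (p - (dN t : ℝ)) ≤ δ * k ^ 2 := by
    rw [Finset.sum_sub_distrib, Finset.sum_const, nsmul_eq_mul, hpc]
    nlinarith [sq_nonneg (k - 2 * p)]
  have hpk : k / 5 ≤ p := by
    have h1 : 0 ≤ ∑ t ∈ Nᶜ, (p - (dN t : ℝ)) := Finset.sum_nonneg fun t _ => by
      have := hdNle t; linarith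
    rw [Finset.sum_sub_distrib, Finset.sum_const, nsmul_eq_mul, hpc] at h1
    have h2 : k ^ 2 / 5 ≤ (k - p) * p := by nlinarith [sq_nonneg k]
    by_contra hc
    push Not at hc
    have h3 : (k - p) * p ≤ k * p := mul_le_mul_of_nonneg_right (by linarith) hp0
    nlinarith
  have hbadc : (Bad.card : ℝ) ≤ 10 * δ * k := by
    have h1 : (Bad.card : ℝ) * (p / 2) ≤ ∑ t ∈ Bad, (p - (dN t : ℝ)) := by
      rw [← nsmul_eq_mul]
      apply Finset.card_nsmul_le_sum
      intro t ht
      have := (Finset.mem_filter.mp ht).2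
      linarith
    have h2 : ∑ t ∈ Bad, (p - (dN t : ℝ)) ≤ ∑ t ∈ Nᶜ, (p - (dN t : ℝ)) :=
      Finset.sum_le_sum_of_subset_of_nonneg (Finset.filter_subset _ _) fun t _ _ => by
        have := hdNle t; linarith
    have h3 : (Bad.card : ℝ) * (k / 10) ≤ δ * k ^ 2 := by
      have : (Bad.card : ℝ) * (k / 10) ≤ (Bad.card : ℝ) * (p / 2) :=
        mul_le_mul_of_nonneg_left (by linarith) (Nat.cast_nonneg _)
      linarith
    have h4 : (Bad.card : ℝ) * (k / 10) ≤ (10 * δ * k) * (k / 10) := by nlinarith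
    exact le_of_mul_le_mul_right h4 (by positivity)
  refine ⟨N, Bad ×ˢ Finset.univ ∪ Finset.univ ×ˢ Bad, ?_, ?_⟩
  · intro i j hij hiff
    rw [Finset.mem_union, Finset.mem_product, Finset.mem_product]
    by_contra hc
    simp only [Finset.mem_univ, and_true, true_and, not_or] at hc
    by_cases hi : i ∈ N
    · exact hNind i hi j (hiff.mp hi) hij
    · have hj : j ∉ N := fun h => hi (hiff.mpr h)
      have hbi : p < 2 * (dN i : ℝ) := by
        by_contra hcc
        exact hc.1 (Finset.mem_filter.mpr ⟨Finset.mem_compl.mpr hi, not_lt.mp hcc⟩)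
      have hbj : p < 2 * (dN j : ℝ) := by
        by_contra hcc
        exact hc.2 (Finset.mem_filter.mpr ⟨Finset.mem_compl.mpr hj, not_lt.mp hcc⟩)
      have h1 : N.card < (N.filter fun w => (ind Γ K).Adj w i).card +
          (N.filter fun w => (ind Γ K).Adj w j).card := by
        have : (N.card : ℝ) < (dN i : ℝ) + (dN j : ℝ) := by rw [← hp]; linarith
        exact_mod_cast this
      have h2 : ((N.filter fun w => (ind Γ K).Adj w i) ∩
          (N.filter fun w => (ind Γ K).Adj w j)).Nonempty := by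
        rw [← Finset.card_pos]
        have h3 := Finset.card_union_add_card_inter (N.filter fun w => (ind Γ K).Adj w i)
          (N.filter fun w => (ind Γ K).Adj w j)
        have h4 : ((N.filter fun w => (ind Γ K).Adj w i) ∪
          (N.filter fun w => (ind Γ K).Adj w j)).card ≤ N.card :=
          Finset.card_le_card (Finset.union_subset (Finset.filter_subset _ _)
            (Finset.filter_subset _ _))
        omega
      obtain ⟨w, hw⟩ := h2
      rw [Finset.mem_inter] at hw
      have hw1 := (Finset.mem_filter.mp hw.1).2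
      have hw2 := (Finset.mem_filter.mp hw.2).2
      exact htf w hw1.2.1 i j hw1.1 hij hw2.1.symm
  · have h1 := Finset.card_union_le (Bad ×ˢ (Finset.univ : Finset ι)) (Finset.univ ×ˢ Bad)
    rw [Finset.card_product, Finset.card_product, Finset.card_univ] at h1
    have h2 : (((Bad ×ˢ (Finset.univ : Finset ι)) ∪ (Finset.univ ×ˢ Bad)).card : ℝ) ≤
        Bad.card * k + k * Bad.card := by rw [hk]; exact_mod_cast h1
    nlinarith

end

end Pool.Agent.H219R2.Cyc
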