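import Mathlib

set_option autoImplicit false

namespace Pool.Agent.H219R2.Cyc

open Finset

section hall

variable {ι : Type} [DecidableEq ι]

theorem hall_cover (K : Finset ι) (N : ι → Finset ι) (T : ℕ) :
    (∃ A ⊆ K, ∃ φ : ι → ι, (∀ s ∈ A, φ s ∈ N s) ∧ (∀ s ∈ A, ∀ s' ∈ A, φ s = φ s' → s = s') ∧
      T ≤ A.card) ∨ (∃ X ⊆ K, K.card + (X.biUnion N).card < T + X.card) := by
  by_cases hT : K.card < T
  · exact Or.inr ⟨∅, Finset.empty_subset _, by simpa using hT⟩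
  push Not at hT
  by_cases hX : ∃ X ⊆ K, K.card + (X.biUnion N).card < T + X.card
  · exact Or.inr hX
  push Not at hX
  left
  set D := K.card - T with hD
  set t : {s // s ∈ K} → Finset (ι ⊕ Fin D) := fun s => (N s.1).disjSum Finset.univ with ht
  have hall : ∀ s : Finset {s // s ∈ K}, s.card ≤ (s.biUnion t).card := by
    intro s
    rcases s.eq_empty_or_nonempty with rfl | hs
    · simp
    · set X := s.map (Function.Embedding.subtype _) with hXdef
      have hXK : X ⊆ K := by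
        intro x hx
        rw [hXdef, Finset.mem_map] at hx
        obtain ⟨y, _, rfl⟩ := hx
        exact y.2
      have h1 := hX X hXK
      have h2 : X.card = s.card := Finset.card_map _
      have h3 : (X.biUnion N).disjSum (Finset.univ : Finset (Fin D)) ⊆ s.biUnion t := by
        intro z hz
        rw [Finset.mem_biUnion]
        rcases z with z | z
        · rw [Finset.inl_mem_disjSum, Finset.mem_biUnion] at hz
          obtain ⟨x, hx, hxz⟩ := hz
          rw [hXdef, Finset.mem_map] at hx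
          obtain ⟨y, hy, rfl⟩ := hx
          exact ⟨y, hy, by rw [ht]; simp only [Finset.inl_mem_disjSum]; exact hxz⟩
        · obtain ⟨y, hy⟩ := hs
          exact ⟨y, hy, by rw [ht]; simp only [Finset.inr_mem_disjSum]; exact Finset.mem_univ _⟩
      have h4 := Finset.card_le_card h3
      rw [Finset.card_disjSum, Finset.card_univ, Fintype.card_fin] at h4
      omega
  obtain ⟨f, hf, hft⟩ := (Finset.all_card_le_biUnion_card_iff_exists_injective t).mp hall
  classical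
  set A := K.filter fun s => ∃ (h : s ∈ K) (u : ι), f ⟨s, h⟩ = Sum.inl u with hA
  set φ : ι → ι := fun s => if h : s ∈ K then Sum.elim id (fun _ => s) (f ⟨s, h⟩) else s with hφ
  refine ⟨A, Finset.filter_subset _ _, φ, ?_, ?_, ?_⟩
  · intro s hs
    rw [hA, Finset.mem_filter] at hs
    obtain ⟨hsK, h, u, hu⟩ := hs
    have h1 := hft ⟨s, h⟩
    rw [hu, ht] at h1
    simp only [Finset.inl_mem_disjSum] at h1
    simp only [hφ, hsK, dif_pos, hu, Sum.elim_inl, id]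
    exact h1
  · intro s hs s' hs' he
    rw [hA, Finset.mem_filter] at hs hs'
    obtain ⟨hsK, h, u, hu⟩ := hs
    obtain ⟨hsK', h', u', hu'⟩ := hs'
    simp only [hφ, hsK, hsK', dif_pos, hu, hu', Sum.elim_inl, id] at he
    have : f ⟨s, h⟩ = f ⟨s', h'⟩ := by rw [hu, hu', he]
    exact congrArg Subtype.val (hf this)
  · have h1 : (K \ A).card ≤ D := by
      set g : ι → Option (Fin D) := fun s =>
        if h : s ∈ K then Sum.elim (fun _ => none) some (f ⟨s, h⟩) else none with hg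
      have h2 : (K \ A).card ≤ ((Finset.univ : Finset (Fin D)).map Function.Embedding.some).card := by
        apply Finset.card_le_card_of_injOn g
        · intro s hs
          rw [Finset.mem_coe, Finset.mem_sdiff] at hs
          rw [Finset.mem_coe, Finset.mem_map]
          rcases hfs : f ⟨s, hs.1⟩ with u | u
          · exact absurd (by rw [hA, Finset.mem_filter]; exact ⟨hs.1, hs.1, u, hfs⟩) hs.2
          · refine ⟨u, Finset.mem_univ _, ?_⟩
            simp only [hg, hs.1, dif_pos, hfs, Sum.elim_inr]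
            rfl
        · intro s hs s' hs' he
          rw [Finset.mem_coe, Finset.mem_sdiff] at hs hs'
          rcases hfs : f ⟨s, hs.1⟩ with u | u
          · exact absurd (by rw [hA, Finset.mem_filter]; exact ⟨hs.1, hs.1, u, hfs⟩) hs.2
          · rcases hfs' : f ⟨s', hs'.1⟩ with u' | u'
            · exact absurd (by rw [hA, Finset.mem_filter]; exact ⟨hs'.1, hs'.1, u', hfs'⟩) hs'.2
            · simp only [hg, hs.1, hs'.1, dif_pos, hfs, hfs', Sum.elim_inr, Option.some.injEq] at he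
              have : f ⟨s, hs.1⟩ = f ⟨s', hs'.1⟩ := by rw [hfs, hfs', he]
              exact congrArg Subtype.val (hf this)
      rw [Finset.card_map, Finset.card_univ, Fintype.card_fin] at h2
      exact h2
    have h2 : A ⊆ K := Finset.filter_subset _ _
    have h3 := Finset.card_sdiff_add_card_eq_card h2
    omega

end hall

section numeric

theorem le_of_sq_le' {x y : ℝ} (h : x ^ 2 ≤ y ^ 2) (hy : 0 ≤ y) : x ≤ y := by
  by_contra hlt
  push Not at hlt
  nlinarith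

theorem quad_bound (a t i Θ sS sT sI YS YT YI : ℝ) (ha : 0 ≤ a) (ht : 0 ≤ t) (hi : 0 ≤ i)
    (hΘ : 0 < Θ) (htΘ : t < Θ) (hmain : a * (Θ ^ 2 + i * (Θ - t)) ≤ Θ ^ 2 * (Θ - t))
    (hsS : 0 ≤ sS) (hYS : 0 ≤ YS) (hYT : 0 ≤ YT) (hYI : 0 ≤ YI)
    (h1 : sS ^ 2 ≤ a * YS) (h2 : sT ^ 2 ≤ t * YT) (h3 : sI ^ 2 ≤ i * YI) :
    (sS + sT) ^ 2 + 2 * sS * sI ≤ Θ * (YS + YT + YI) := by
  have hd : 0 < Θ - t := by linarith
  have e1 : 2 * sS * sI ≤ sS ^ 2 * i / Θ + Θ * YI := by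
    apply le_of_sq_le' _ (by positivity)
    have : (2 * sS * sI) ^ 2 ≤ 4 * (sS ^ 2 * i / Θ) * (Θ * YI) := by
      have : 4 * (sS ^ 2 * i / Θ) * (Θ * YI) = 4 * sS ^ 2 * (i * YI) := by
        field_simp
      rw [this]
      nlinarith [sq_nonneg sS]
    nlinarith [sq_nonneg (sS ^ 2 * i / Θ - Θ * YI)]
  have e2 : 2 * sS * sT ≤ sS ^ 2 * t / (Θ - t) + (Θ - t) * YT := by
    apply le_of_sq_le' _ (by positivity)
    have : (2 * sS * sT) ^ 2 ≤ 4 * (sS ^ 2 * t / (Θ - t)) * ((Θ - t) * YT) := by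
      have : 4 * (sS ^ 2 * t / (Θ - t)) * ((Θ - t) * YT) = 4 * sS ^ 2 * (t * YT) := by
        field_simp
      rw [this]
      nlinarith [sq_nonneg sS]
    nlinarith [sq_nonneg (sS ^ 2 * t / (Θ - t) - (Θ - t) * YT)]
  have e3 : sS ^ 2 + sS ^ 2 * t / (Θ - t) + sS ^ 2 * i / Θ ≤ Θ * YS := by
    have h4 : sS ^ 2 + sS ^ 2 * t / (Θ - t) + sS ^ 2 * i / Θ =
        sS ^ 2 * ((Θ ^ 2 + i * (Θ - t)) / (Θ * (Θ - t))) := by
      field_simp
      ring
    rw [h4]
    have h5 : 0 ≤ (Θ ^ 2 + i * (Θ - t)) / (Θ * (Θ - t)) := by positivity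
    calc sS ^ 2 * ((Θ ^ 2 + i * (Θ - t)) / (Θ * (Θ - t)))
        ≤ (a * YS) * ((Θ ^ 2 + i * (Θ - t)) / (Θ * (Θ - t))) := mul_le_mul_of_nonneg_right h1 h5
      _ = YS * ((a * (Θ ^ 2 + i * (Θ - t))) / (Θ * (Θ - t))) := by ring
      _ ≤ YS * ((Θ ^ 2 * (Θ - t)) / (Θ * (Θ - t))) := by
          apply mul_le_mul_of_nonneg_left _ hYS
          exact div_le_div_of_nonneg_right hmain (by positivity)
      _ = Θ * YS := by field_simp
  nlinarith

theorem g_bound (c α β : ℝ) (hc : c ^ 2 = 3 * c - 1) (hc1 : 0.38 < c) (hc2 : c < 0.382)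
    (hα : 0 ≤ α) (hβ : 0 ≤ β) (h : 2 * α + β ≤ c) :
    c - 2 * α - β ≤ (1 - 2 * β) * (1 - 4 * α * (1 - α - β)) - 2 * α := by
  obtain ⟨s, hs⟩ : ∃ s, s = c - 2 * α - β := ⟨_, rfl⟩
  have hs0 : 0 ≤ s := by linarith
  have hαe : α = (c - s - β) / 2 := by linarith
  have hβs : β + s ≤ c := by linarith
  rw [← hs]
  have key : (1 - 2 * β) * (1 - 4 * α * (1 - α - β)) - 2 * α =
      (3 - 2 * c) * (β + s) - 5 * β ^ 2 + s ^ 2 - 4 * (1 - c) * β * s + 2 * β ^ 3 - 2 * β * s ^ 2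
      + (1 - 2 * β) * (c ^ 2 - (3 * c - 1)) := by
    rw [hαe]; ring
  rw [key, hc]
  have h1 : 0 ≤ β * ((3 - 2 * c) - 5 * β) := mul_nonneg hβ (by linarith)
  have h2 : 0 ≤ s * ((3 - 2 * c) + s - 4 * (1 - c) * β - 2 * β * s - 1) := by
    apply mul_nonneg hs0
    have hβ1 : β ≤ 0.382 := by linarith
    have hs1 : s ≤ 0.382 := by linarith
    nlinarith [mul_nonneg hβ hs0]
  have h3 : 0 ≤ β ^ 3 := by positivity
  nlinarith

theorem f_bound (c ε α β θ : ℝ) (hc : c ^ 2 = 3 * c - 1) (hc1 : 0.38 < c) (hc2 : c < 0.382)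
    (hα : 0 ≤ α) (hβ : 0 ≤ β) (h : 2 * α + β ≤ c - ε) (hθ : 1 / 2 - ε / 6 ≤ θ) (hθ2 : θ ≤ 1 / 2)
    (hε : 0 < ε) :
    α * (θ ^ 2 + (1 - α - β) * (θ - β)) ≤ θ ^ 2 * (θ - β) := by
  have hεc : ε ≤ c := by linarith
  have hg := g_bound c α β hc hc1 hc2 hα hβ (by linarith)
  have hg2 : ε ≤ (1 - 2 * β) * (1 - 4 * α * (1 - α - β)) - 2 * α := by linarith
  obtain ⟨δ, hδ⟩ : ∃ δ, δ = 1 / 2 - θ := ⟨_, rfl⟩
  have hδ0 : 0 ≤ δ := by linarith
  have hδ1 : δ ≤ ε / 6 := by linarith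
  have hθe : θ = 1 / 2 - δ := by linarith
  -- f(θ) = g/8 - δ (3/4 - β - α - α(1-α-β)) + δ² (3/2 - β - α) - δ³
  have key : θ ^ 2 * (θ - β) - α * (θ ^ 2 + (1 - α - β) * (θ - β)) =
      ((1 - 2 * β) * (1 - 4 * α * (1 - α - β)) - 2 * α) / 8
      - δ * (3 / 4 - β - α - α * (1 - α - β)) + δ ^ 2 * (3 / 2 - β - α) - δ ^ 3 := by
    rw [hθe]; ring
  have h1 : 0 ≤ δ * (β + α + α * (1 - α - β)) := by
    apply mul_nonneg hδ0
    have : 0 ≤ α * (1 - α - β) := mul_nonneg hα (by linarith)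
    linarith
  have h2 : 0 ≤ δ ^ 2 * (3 / 2 - β - α - δ) := mul_nonneg (sq_nonneg _) (by linarith)
  nlinarith

end numeric

section bound

variable {ι : Type} [DecidableEq ι] [Fintype ι]

open Classical in
theorem pt_bound (a b c d : Prop) (h1 : a → d) (h2 : c → b) (x y : ℝ) (hx : 0 ≤ x) (hy : 0 ≤ y) :
    x * y ≤ ((if ¬a ∧ b then x else 0) + (if (¬a ∧ ¬b) ∨ (a ∧ b) then x else 0)) *
      ((if ¬c ∧ d then y else 0) + (if (¬c ∧ ¬d) ∨ (c ∧ d) then y else 0)) +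
      (if ¬a ∧ b then x else 0) * (if c ∧ ¬d then y else 0) +
      (if a ∧ ¬b then x else 0) * (if ¬c ∧ d then y else 0) := by
  have hxy := mul_nonneg hx hy
  by_cases ha : a
  · have hd := h1 ha
    by_cases hb : b <;> by_cases hc : c <;> simp [ha, hd, hb, hc]
    exact absurd (h2 hc) hb
  · by_cases hc : c
    · have hb := h2 hc
      by_cases hd : d <;> simp [ha, hb, hc, hd]
    · by_cases hb : b <;> by_cases hd : d <;> simp [ha, hb, hc, hd]

open Classical in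
theorem cover_quad (Γ : SimpleGraph ι) (K X : Finset ι) (hXK : X ⊆ K) (y : ι → ℝ) (hy : ∀ s, 0 ≤ y s)
    (c ε θ : ℝ) (hc : c ^ 2 = 3 * c - 1) (hc1 : 0.38 < c) (hc2 : c < 0.382)
    (hθ : 1 / 2 - ε / 6 ≤ θ) (hθ2 : θ ≤ 1 / 2) (hε : 0 < ε) (hεc : ε < c)
    (hcov : (K.card : ℝ) + (X.biUnion fun s => K.filter (Γ.Adj s)).card - X.card ≤
      (c - ε) * Fintype.card ι) (hk : 0 < Fintype.card ι) :
    ∑ s ∈ K, ∑ t ∈ K, (if Γ.Adj s t then y s * y t else 0) ≤
      θ * Fintype.card ι * ∑ s ∈ K, y s ^ 2 := by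
  set NX := X.biUnion fun s => K.filter (Γ.Adj s) with hNX
  have hNXK : NX ⊆ K := by
    intro z hz
    rw [hNX, Finset.mem_biUnion] at hz
    obtain ⟨s, _, hz⟩ := hz
    exact (Finset.mem_filter.mp hz).1
  set S := K.filter fun s => s ∉ X ∧ s ∈ NX with hS
  set I := K.filter fun s => s ∈ X ∧ s ∉ NX with hI
  set T := K.filter fun s => (s ∉ X ∧ s ∉ NX) ∨ (s ∈ X ∧ s ∈ NX) with hT
  obtain ⟨k, hkdef⟩ : ∃ k : ℝ, k = (Fintype.card ι : ℝ) := ⟨_, rfl⟩
  have hk0 : 0 < k := by rw [hkdef]; exact_mod_cast hk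
  rw [← hkdef] at hcov ⊢
  -- sizes
  have hcards : (S.card : ℝ) + T.card + I.card = K.card := by
    rw [Finset.card_eq_sum_ones S, Finset.card_eq_sum_ones T, Finset.card_eq_sum_ones I,
      Finset.card_eq_sum_ones K, hS, hT, hI, Finset.sum_filter, Finset.sum_filter, Finset.sum_filter]
    push_cast
    rw [← Finset.sum_add_distrib, ← Finset.sum_add_distrib]
    refine Finset.sum_congr rfl fun s _ => ?_
    by_cases h1 : s ∈ X <;> by_cases h2 : s ∈ NX <;> simp [h1, h2]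
  have h2S : 2 * (S.card : ℝ) + T.card = K.card + NX.card - X.card := by
    have e1 : (NX.card : ℝ) = ∑ s ∈ K, if s ∈ NX then (1:ℝ) else 0 := by
      rw [Finset.sum_ite_mem, Finset.inter_eq_right.mpr hNXK]; simp
    have e2 : (X.card : ℝ) = ∑ s ∈ K, if s ∈ X then (1:ℝ) else 0 := by
      rw [Finset.sum_ite_mem, Finset.inter_eq_right.mpr hXK]; simp
    rw [e1, e2, Finset.card_eq_sum_ones S, Finset.card_eq_sum_ones T,
      Finset.card_eq_sum_ones K, hS, hT, Finset.sum_filter, Finset.sum_filter]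
    push_cast
    rw [Finset.mul_sum, ← Finset.sum_add_distrib, ← Finset.sum_add_distrib, ← Finset.sum_sub_distrib]
    refine Finset.sum_congr rfl fun s _ => ?_
    by_cases h1 : s ∈ X <;> by_cases h2 : s ∈ NX <;> simp [h1, h2] <;> norm_num
  have hKk : (K.card : ℝ) ≤ k := by rw [hkdef]; exact_mod_cast Finset.card_le_univ K
  -- pointwise bound
  set u : ι → ℝ := fun s => if s ∈ S then y s else 0 with hu
  set v : ι → ℝ := fun s => if s ∈ T then y s else 0 with hv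
  set w : ι → ℝ := fun s => if s ∈ I then y s else 0 with hw
  have hpt : ∀ s ∈ K, ∀ t ∈ K, (if Γ.Adj s t then y s * y t else 0) ≤
      (u s + v s) * (u t + v t) + u s * w t + w s * u t := by
    intro s hs t ht
    have hys := hy s
    have hyt := hy t
    have hu0 : ∀ s, 0 ≤ u s := fun s => by simp only [hu]; split_ifs; exacts [hy s, le_rfl]
    have hv0 : ∀ s, 0 ≤ v s := fun s => by simp only [hv]; split_ifs; exacts [hy s, le_rfl]
    have hw0 : ∀ s, 0 ≤ w s := fun s => by simp only [hw]; split_ifs; exacts [hy s, le_rfl]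
    by_cases hadj : Γ.Adj s t
    · rw [if_pos hadj]
      have a1 : s ∈ X → t ∈ NX := fun h => by
        rw [hNX, Finset.mem_biUnion]
        exact ⟨s, h, Finset.mem_filter.mpr ⟨ht, hadj⟩⟩
      have a2 : t ∈ X → s ∈ NX := fun h => by
        rw [hNX, Finset.mem_biUnion]
        exact ⟨t, h, Finset.mem_filter.mpr ⟨hs, hadj.symm⟩⟩
      simp only [hu, hv, hw, hS, hT, hI, Finset.mem_filter, hs, ht, true_and]
      convert pt_bound _ _ _ _ a1 a2 _ _ hys hyt
    · rw [if_neg hadj]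
      have := hu0 s; have := hu0 t; have := hv0 s; have := hv0 t; have := hw0 s; have := hw0 t
      positivity
  have hsum : ∑ s ∈ K, ∑ t ∈ K, (if Γ.Adj s t then y s * y t else 0) ≤
      ((∑ s ∈ K, u s) + ∑ s ∈ K, v s) ^ 2 + 2 * (∑ s ∈ K, u s) * (∑ s ∈ K, w s) := by
    calc _ ≤ ∑ s ∈ K, ∑ t ∈ K, ((u s + v s) * (u t + v t) + u s * w t + w s * u t) :=
          Finset.sum_le_sum fun s hs => Finset.sum_le_sum fun t ht => hpt s hs t ht
      _ = _ := by
          simp only [Finset.sum_add_distrib, ← Finset.mul_sum, ← Finset.sum_mul]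
          ring
  -- sums over classes
  have hsu : ∀ (B : Finset ι) (hB : B ⊆ K), ∑ s ∈ K, (if s ∈ B then y s else 0) = ∑ s ∈ B, y s := by
    intro B hB
    rw [Finset.sum_ite_mem, Finset.inter_eq_right.mpr hB]
  have hSK : S ⊆ K := Finset.filter_subset _ _
  have hTK : T ⊆ K := Finset.filter_subset _ _
  have hIK : I ⊆ K := Finset.filter_subset _ _
  have hu' : ∑ s ∈ K, u s = ∑ s ∈ S, y s := hsu S hSK
  have hv' : ∑ s ∈ K, v s = ∑ s ∈ T, y s := hsu T hTK
  have hw' : ∑ s ∈ K, w s = ∑ s ∈ I, y s := hsu I hIK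
  rw [hu', hv', hw'] at hsum
  have hY : ∑ s ∈ K, y s ^ 2 = ∑ s ∈ S, y s ^ 2 + ∑ s ∈ T, y s ^ 2 + ∑ s ∈ I, y s ^ 2 := by
    rw [hS, hT, hI, Finset.sum_filter, Finset.sum_filter, Finset.sum_filter,
      ← Finset.sum_add_distrib, ← Finset.sum_add_distrib]
    refine Finset.sum_congr rfl fun s _ => ?_
    by_cases h1 : s ∈ X <;> by_cases h2 : s ∈ NX <;> simp [h1, h2]
  have hCS : ∀ B : Finset ι, (∑ s ∈ B, y s) ^ 2 ≤ B.card * ∑ s ∈ B, y s ^ 2 :=
    fun B => sq_sum_le_card_mul_sum_sq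
  obtain ⟨α, hα⟩ : ∃ α : ℝ, α = S.card / k := ⟨_, rfl⟩
  obtain ⟨β, hβ⟩ : ∃ β : ℝ, β = T.card / k := ⟨_, rfl⟩
  have hSk : (S.card : ℝ) = α * k := by rw [hα]; exact (div_mul_cancel₀ _ hk0.ne').symm
  have hTk : (T.card : ℝ) = β * k := by rw [hβ]; exact (div_mul_cancel₀ _ hk0.ne').symm
  have hα0 : 0 ≤ α := by rw [hα]; exact div_nonneg (Nat.cast_nonneg _) hk0.le
  have hβ0 : 0 ≤ β := by rw [hβ]; exact div_nonneg (Nat.cast_nonneg _) hk0.le
  have hab : 2 * α + β ≤ c - ε := by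
    have : (2 * α + β) * k ≤ (c - ε) * k := by
      calc (2 * α + β) * k = 2 * (S.card : ℝ) + T.card := by rw [hSk, hTk]; ring
        _ = _ := h2S
        _ ≤ _ := hcov
    exact le_of_mul_le_mul_right this hk0
  have hf := f_bound c ε α β θ hc hc1 hc2 hα0 hβ0 hab hθ hθ2 hε
  have hθ0 : 0 < θ := by linarith
  have hβθ : β < θ := by linarith
  have hIle : (I.card : ℝ) ≤ (1 - α - β) * k := by
    have : (I.card : ℝ) = K.card - α * k - β * k := by rw [← hSk, ← hTk]; linarith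
    rw [this]; nlinarith
  have hmain : (S.card : ℝ) * ((θ * k) ^ 2 + I.card * (θ * k - T.card)) ≤
      (θ * k) ^ 2 * (θ * k - T.card) := by
    rw [hSk, hTk]
    have h1 : (I.card : ℝ) * (θ * k - β * k) ≤ (1 - α - β) * k * (θ * k - β * k) :=
      mul_le_mul_of_nonneg_right hIle (by nlinarith)
    calc α * k * ((θ * k) ^ 2 + I.card * (θ * k - β * k))
        ≤ α * k * ((θ * k) ^ 2 + (1 - α - β) * k * (θ * k - β * k)) := by
          apply mul_le_mul_of_nonneg_left _ (mul_nonneg hα0 hk0.le); linarith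
      _ = k ^ 3 * (α * (θ ^ 2 + (1 - α - β) * (θ - β))) := by ring
      _ ≤ k ^ 3 * (θ ^ 2 * (θ - β)) := mul_le_mul_of_nonneg_left hf (pow_nonneg hk0.le 3)
      _ = _ := by ring
  have hss : ∀ B : Finset ι, 0 ≤ ∑ s ∈ B, y s ^ 2 := fun B => Finset.sum_nonneg fun s _ => sq_nonneg _
  have hfin := quad_bound S.card T.card I.card (θ * k) (∑ s ∈ S, y s) (∑ s ∈ T, y s)
    (∑ s ∈ I, y s) (∑ s ∈ S, y s ^ 2) (∑ s ∈ T, y s ^ 2) (∑ s ∈ I, y s ^ 2)
    (Nat.cast_nonneg _) (Nat.cast_nonneg _) (Nat.cast_nonneg _) (mul_pos hθ0 hk0)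
    (by rw [hTk]; exact mul_lt_mul_of_pos_right hβθ hk0) hmain
    (Finset.sum_nonneg fun s _ => hy s) (hss _) (hss _) (hss _)
    (hCS S) (hCS T) (hCS I)
  rw [hY]
  exact hsum.trans hfin

end bound

end Pool.Agent.H219R2.Cyc
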