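import Mathlib

set_option autoImplicit false

namespace Pool.Agent.H219R2.Cyc

theorem num_h_large (n h L : ℝ) (hn : 10 ^ 9 ≤ n) (h0 : 0 ≤ h) (hhn : h ≤ n) (hL0 : 0 ≤ L)
    (hL : L ≤ h / 2 + 1 / 10 ^ 9 * n)
    (hΦ : -1 < 4 * L ^ 2 - h ^ 2 - n * (n - h) / 2000) : (1 - 1 / 10 ^ 4) * n ≤ h := by
  have h1 : 4 * L ^ 2 ≤ (h + 2 / 10 ^ 9 * n) ^ 2 := by
    have : 2 * L ≤ h + 2 / 10 ^ 9 * n := by linarith
    nlinarith [pow_le_pow_left₀ (by linarith : (0:ℝ) ≤ 2 * L) this 2]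
  by_contra hcon
  push Not at hcon
  have h2 : n / 10 ^ 4 ≤ n - h := by linarith
  have h3 : n * (n / 10 ^ 4) ≤ n * (n - h) := mul_le_mul_of_nonneg_left h2 (by linarith)
  have h4 : n * h ≤ n * n := mul_le_mul_of_nonneg_left hhn (by linarith)
  have h5 : (10:ℝ) ^ 9 * 10 ^ 9 ≤ n * n := mul_le_mul hn hn (by norm_num) (by linarith)
  nlinarith

theorem num_weight (n h L L' t : ℝ) (hn : 10 ^ 9 ≤ n) (hhn : h ≤ n)
    (hh : (1 - 1 / 10 ^ 4) * n ≤ h) (hL0 : 0 ≤ L) (hL'0 : 0 ≤ L') (ht0 : 0 ≤ t) 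
    (hL : L ≤ h / 2 + 1 / 10 ^ 9 * n)
    (hLL : L * (1 - 2 * t) ≤ L' * (1 - t))
    (hmax : 4 * L' ^ 2 - (h - 1) ^ 2 - n * (n - (h - 1)) / 2000 ≤
      4 * L ^ 2 - h ^ 2 - n * (n - h) / 2000) : 999 / 1000 ≤ t * h := by
  by_contra hcon
  push Not at hcon
  have hh8 : (10:ℝ) ^ 8 ≤ h := by nlinarith
  have hth : t * 10 ^ 8 ≤ t * h := mul_le_mul_of_nonneg_left hh8 ht0
  have ht1 : t ≤ 1 / 10 ^ 8 := by linarith
  have h1 : (L * (1 - 2 * t)) ^ 2 ≤ (L' * (1 - t)) ^ 2 :=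
    pow_le_pow_left₀ (mul_nonneg hL0 (by linarith)) hLL 2
  have h2 : 4 * L' ^ 2 ≤ 4 * L ^ 2 - 2 * h + 1 + n / 2000 := by nlinarith
  have h3 : 4 * (L' * (1 - t)) ^ 2 ≤ (4 * L ^ 2 - 2 * h + 1 + n / 2000) * (1 - t) ^ 2 := by
    have := mul_le_mul_of_nonneg_right h2 (sq_nonneg (1 - t))
    nlinarith
  have h4 : (2 * h - 1 - n / 2000) * (1 - t) ^ 2 ≤ 4 * L ^ 2 * (t * (2 - 3 * t)) := by
    nlinarith
  have hA : 0 ≤ 2 * h - 1 - n / 2000 := by nlinarith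
  have h5 : (2 * h - 1 - n / 2000) * (1 - 2 * t) ≤ (2 * h - 1 - n / 2000) * (1 - t) ^ 2 :=
    mul_le_mul_of_nonneg_left (by nlinarith [sq_nonneg t]) hA
  have h6 : (2 * h - 1 - n / 2000) * (2 * t) ≤ 4 := by nlinarith
  have h7 : 4 * L ^ 2 * (t * (2 - 3 * t)) ≤ 8 * L ^ 2 * t := by
    have : 0 ≤ L ^ 2 * t ^ 2 := by positivity
    nlinarith
  have h8 : 4 * L ^ 2 ≤ h ^ 2 * (1 + 1 / 10 ^ 6) := by
    have e1 : 2 * L ≤ h * (1 + 3 / 10 ^ 9) := by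
      have : n ≤ h * 1.1 := by nlinarith
      linarith
    have e2 := pow_le_pow_left₀ (by linarith : (0:ℝ) ≤ 2 * L) e1 2
    have e3 : (1 + 3 / 10 ^ 9 : ℝ) ^ 2 ≤ 1 + 1 / 10 ^ 6 := by norm_num
    have e4 : (h * (1 + 3 / 10 ^ 9)) ^ 2 ≤ h ^ 2 * (1 + 1 / 10 ^ 6) := by
      rw [mul_pow]; exact mul_le_mul_of_nonneg_left e3 (sq_nonneg h)
    nlinarith
  have h9 : 8 * L ^ 2 * t ≤ 2 * h * (1 + 1 / 10 ^ 6) * (t * h) := by
    have := mul_le_mul_of_nonneg_right h8 ht0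
    nlinarith
  have h10 : 2 * h * (1 + 1 / 10 ^ 6) * (t * h) ≤ 2 * h * (1 + 1 / 10 ^ 6) * (999 / 1000) :=
    mul_le_mul_of_nonneg_left hcon.le (by positivity)
  have h11 : n ≤ h * 1.001 := by nlinarith
  nlinarith

theorem num_deg (h L t d : ℝ) (hh : 10 ^ 8 ≤ h) (hd0 : 0 ≤ d)
    (ht : 999 / 1000 ≤ t * h) (hL : h ^ 2 - 1 ≤ 4 * L ^ 2)
    (hd : L ^ 2 * t ≤ d * (1 - (h - d) * ((999 / 1000) / h))) : 0.49 * h ≤ d := by
  by_contra hcon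
  push Not at hcon
  have hpos : 0 < h := by linarith
  have h1 : L ^ 2 * t * h ≤ d * (h - (h - d) * (999 / 1000)) := by
    have := mul_le_mul_of_nonneg_right hd hpos.le
    calc L ^ 2 * t * h ≤ d * (1 - (h - d) * ((999 / 1000) / h)) * h := this
      _ = _ := by field_simp
  have h2 : L ^ 2 * (999 / 1000) ≤ L ^ 2 * t * h := by
    have := mul_le_mul_of_nonneg_left ht (sq_nonneg L)
    linarith
  have h3 : d * (h - (h - d) * (999 / 1000)) ≤ (0.49 * h) * (0.001 * h + 0.49 * h) := by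
    apply mul_le_mul hcon.le _ _ (by positivity)
    · linarith
    · linarith
  nlinarith

end Pool.Agent.H219R2.Cyc
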