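import Mathlib
import Pool.Agent.H219R2.Cyc.NearNum
import Pool.Agent.H219R2.Cyc.NearBip

set_option autoImplicit false

namespace Pool.Agent.H219R2.Cyc

open Finset Pool.Agent.Helper91.EC

section

variable {V : Type} [Fintype V] [DecidableEq V] (G : SimpleGraph V) [DecidableRel G.Adj]

/-- the number of `E`-pairs starting at `v` -/
def outE (E : Finset (V × V)) (v : V) : ℕ := (E.filter fun p => p.1 = v).card

theorem sum_outE (E : Finset (V × V)) : ∑ v, outE E v = E.card := by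
  unfold outE
  exact (Finset.card_eq_sum_card_fiberwise (f := fun p : V × V => p.1) (t := Finset.univ)
    (fun _ _ => Finset.mem_coe.mpr (Finset.mem_univ _))).symm

theorem atyp_card (E : Finset (V × V)) (c : ℝ) (hc : 0 < c) (hE : (E.card : ℝ) ≤ c ^ 2) :
    ((Finset.univ.filter fun v => c < (outE E v : ℝ)).card : ℝ) ≤ c := by
  set A := Finset.univ.filter fun v => c < (outE E v : ℝ) with hA
  have h1 : (A.card : ℝ) * c ≤ ∑ v ∈ A, (outE E v : ℝ) := by
    rw [← nsmul_eq_mul]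
    exact Finset.card_nsmul_le_sum A _ c fun v hv => by
      rw [hA, Finset.mem_filter] at hv; exact hv.2.le
  have h2 : ∑ v ∈ A, (outE E v : ℝ) ≤ ∑ v, (outE E v : ℝ) :=
    Finset.sum_le_univ_sum_of_nonneg fun v => Nat.cast_nonneg _
  have h3 : ∑ v, (outE E v : ℝ) = E.card := by exact_mod_cast sum_outE E
  have h4 : (A.card : ℝ) * c ≤ c * c := by rw [h3] at h2; nlinarith
  exact le_of_mul_le_mul_right h4 hc

theorem in_le_outE (E : Finset (V × V)) (W : Finset V) (v : V) (h : ∀ w ∈ W, (v, w) ∈ E) :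
    W.card ≤ outE E v := by
  unfold outE
  apply Finset.card_le_card_of_injOn (fun w => (v, w))
  · intro w hw
    rw [Finset.mem_coe, Finset.mem_filter]
    exact ⟨h w hw, rfl⟩
  · intro w _ w' _ he
    exact (Prod.mk.inj he).2

/-- typical vertices of `H` on the side `s` -/
noncomputable def typ (E : Finset (V × V)) (c : ℝ) (H s : Finset V) : Finset V :=
  (H ∩ s).filter fun v => (outE E v : ℝ) ≤ c

theorem typ_deg (E : Finset (V × V)) (c : ℝ) (H s : Finset V)
    (hE : ∀ v w, G.Adj v w → (v ∈ s ↔ w ∈ s) → (v, w) ∈ E) (D : ℝ)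
    (hD : ∀ v ∈ H, D ≤ ((H.filter (G.Adj v)).card : ℝ)) (v : V) (hv : v ∈ typ E c H s) :
    D - c ≤ (((H \ s).filter (G.Adj v)).card : ℝ) := by
  rw [typ, Finset.mem_filter, Finset.mem_inter] at hv
  obtain ⟨⟨hvH, hvs⟩, hvc⟩ := hv
  have h1 := hD v hvH
  have h2 : (H.filter (G.Adj v)).card ≤ ((H \ s).filter (G.Adj v)).card +
      ((H ∩ s).filter (G.Adj v)).card := by
    rw [← Finset.card_union_of_disjoint, ← Finset.filter_union, Finset.sdiff_union_inter]
    exact Finset.disjoint_filter_filter (Finset.disjoint_left.mpr fun x hx hx' =>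
      (Finset.mem_sdiff.mp hx).2 (Finset.mem_inter.mp hx').2)
  have h3 : ((H ∩ s).filter (G.Adj v)).card ≤ outE E v := in_le_outE E _ v fun w hw => by
    rw [Finset.mem_filter, Finset.mem_inter] at hw
    exact hE v w hw.2 (by simp [hvs, hw.1.2])
  have h2' : ((H.filter (G.Adj v)).card : ℝ) ≤ ((H \ s).filter (G.Adj v)).card +
      ((H ∩ s).filter (G.Adj v)).card := by exact_mod_cast h2
  have h3' : (((H ∩ s).filter (G.Adj v)).card : ℝ) ≤ outE E v := by exact_mod_cast h3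
  linarith

theorem typ_card (E : Finset (V × V)) (c : ℝ) (H s : Finset V) (hc : 0 < c)
    (hE : (E.card : ℝ) ≤ c ^ 2) :
    ((H ∩ s).card : ℝ) - c ≤ ((typ E c H s).card : ℝ) := by
  have h1 : (H ∩ s) ⊆ typ E c H s ∪ Finset.univ.filter fun v => c < (outE E v : ℝ) := by
    intro v hv
    rw [Finset.mem_union, typ, Finset.mem_filter, Finset.mem_filter]
    by_cases h : (outE E v : ℝ) ≤ c
    · exact Or.inl ⟨hv, h⟩
    · exact Or.inr ⟨Finset.mem_univ _, not_le.mp h⟩
  have h2 := (Finset.card_le_card h1).trans (Finset.card_union_le _ _)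
  have h3 := atyp_card E c hc hE
  have h4 : ((H ∩ s).card : ℝ) ≤ (typ E c H s).card +
      (Finset.univ.filter fun v => c < (outE E v : ℝ)).card := by exact_mod_cast h2
  linarith

theorem typ_com (E : Finset (V × V)) (c : ℝ) (H s : Finset V)
    (hE : ∀ v w, G.Adj v w → (v ∈ s ↔ w ∈ s) → (v, w) ∈ E) (D : ℝ)
    (hD : ∀ v ∈ H, D ≤ ((H.filter (G.Adj v)).card : ℝ)) (u v : V) (hu : u ∈ typ E c H s)
    (hv : v ∈ typ E c H s) :
    2 * (D - c) - ((H \ s).card : ℝ) ≤ ((com G u v).card : ℝ) := by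
  have h1 := typ_deg G E c H s hE D hD u hu
  have h2 := typ_deg G E c H s hE D hD v hv
  have h3 : ((H \ s).filter (G.Adj u)).card + ((H \ s).filter (G.Adj v)).card ≤
      (H \ s).card + (com G u v).card := by
    rw [← Finset.card_union_add_card_inter]
    apply Nat.add_le_add
    · exact Finset.card_le_card (Finset.union_subset (Finset.filter_subset _ _) (Finset.filter_subset _ _))
    · apply Finset.card_le_card
      intro w hw
      rw [Finset.mem_inter, Finset.mem_filter, Finset.mem_filter] at hw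
      rw [com, Finset.mem_filter]
      exact ⟨Finset.mem_univ _, hw.1.2, hw.2.2.symm⟩
  have h4 : (((H \ s).filter (G.Adj u)).card : ℝ) + ((H \ s).filter (G.Adj v)).card ≤
      (H \ s).card + (com G u v).card := by exact_mod_cast h3
  linarith

/-- the final combinatorial step: in a nearly bipartite graph with a dense part `H` of large
minimum degree containing a triangle, there are cycles of all lengths up to `0.385 n` -/
theorem near_comb (s H : Finset V) (E : Finset (V × V)) (n : ℝ) (hn : 10 ^ 9 ≤ n)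
    (hE : ∀ v w, G.Adj v w → (v ∈ s ↔ w ∈ s) → (v, w) ∈ E)
    (hEc : (E.card : ℝ) ≤ (1 / 10 ^ 9 * n) ^ 2) (hH : (1 - 1 / 10 ^ 4) * n ≤ (H.card : ℝ))
    (hHn : (H.card : ℝ) ≤ n)
    (hD : ∀ v ∈ H, 0.49 * (H.card : ℝ) ≤ ((H.filter (G.Adj v)).card : ℝ))
    (x y z : V) (hxy : G.Adj x y) (hyz : G.Adj y z) (hzx : G.Adj z x)
    (hx : x ∈ H) (hy : y ∈ H) (hz : z ∈ H)
    (ℓ : ℕ) (h3 : 3 ≤ ℓ) (hℓ : (ℓ : ℝ) ≤ 0.385 * n) :
    ∃ l : List V, l.length = ℓ ∧ CycList G l := by
  obtain ⟨c, hc⟩ : ∃ c : ℝ, c = 1 / 10 ^ 9 * n := ⟨_, rfl⟩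
  rw [← hc] at hEc
  have hc0 : 0 < c := by rw [hc]; positivity
  obtain ⟨h, hh⟩ : ∃ h : ℝ, h = H.card := ⟨_, rfl⟩
  rw [← hh] at hH hHn
  simp only [← hh] at hD
  have hE' : ∀ v w, G.Adj v w → (v ∈ sᶜ ↔ w ∈ sᶜ) → (v, w) ∈ E := by
    intro v w hvw hs
    simp only [Finset.mem_compl] at hs
    exact hE v w hvw (not_iff_not.mp hs)
  have hsd : H \ sᶜ = H ∩ s := by ext v; simp
  have hsi : H ∩ sᶜ = H \ s := by ext v; simp
  have hsum : ((H ∩ s).card : ℝ) + (H \ s).card = h := by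
    rw [hh]; exact_mod_cast Finset.card_inter_add_card_sdiff H s
  have t1 := typ_card E c H s hc0 hEc
  have t2 := typ_card E c H sᶜ hc0 hEc
  rw [hsi] at t2
  have d1 := typ_deg G E c H s hE _ hD
  have d2 := typ_deg G E c H sᶜ hE' _ hD
  rw [hsd] at d2
  have f1 : ∀ v, (((H \ s).filter (G.Adj v)).card : ℝ) ≤ (H \ s).card := fun v => by
    exact_mod_cast Finset.card_le_card (Finset.filter_subset _ _)
  have f2 : ∀ v, (((H ∩ s).filter (G.Adj v)).card : ℝ) ≤ (H ∩ s).card := fun v => by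
    exact_mod_cast Finset.card_le_card (Finset.filter_subset _ _)
  have g1 : (typ E c H s).Nonempty → 0.489 * h ≤ (H \ s).card := by
    rintro ⟨v, hv⟩
    have := d1 v hv; have := f1 v
    linarith
  have g2 : (typ E c H sᶜ).Nonempty → 0.489 * h ≤ (H ∩ s).card := by
    rintro ⟨v, hv⟩
    have := d2 v hv; have := f2 v
    linarith
  have pos : ∀ A : Finset V, (0:ℝ) < A.card → A.Nonempty := fun A hA =>
    Finset.card_pos.mp (by exact_mod_cast hA)
  have both : 0.489 * h ≤ (H \ s).card ∧ 0.489 * h ≤ (H ∩ s).card := by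
    by_cases hcase : c < ((H ∩ s).card : ℝ)
    · have a1 := g1 (pos _ (by linarith))
      exact ⟨a1, g2 (pos _ (by linarith))⟩
    · have a2 := g2 (pos _ (by linarith))
      exact ⟨g1 (pos _ (by linarith)), a2⟩
  obtain ⟨b1, b2⟩ := both
  have hM1 : ((ℓ + 1 : ℕ) : ℝ) ≤ 0.4 * h := by push_cast; linarith
  have c1 : ℓ + 1 ≤ (typ E c H s).card := by
    have : ((ℓ + 1 : ℕ) : ℝ) ≤ (typ E c H s).card := by linarith
    exact_mod_cast this
  have c2 : ℓ + 1 ≤ (typ E c H sᶜ).card := by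
    have : ((ℓ + 1 : ℕ) : ℝ) ≤ (typ E c H sᶜ).card := by linarith
    exact_mod_cast this
  have k1 : ∀ u ∈ typ E c H s, ∀ v ∈ typ E c H s, ℓ + 1 ≤ (com G u v).card := by
    intro u hu v hv
    have := typ_com G E c H s hE _ hD u v hu hv
    have : ((ℓ + 1 : ℕ) : ℝ) ≤ (com G u v).card := by linarith
    exact_mod_cast this
  have k2 : ∀ u ∈ typ E c H sᶜ, ∀ v ∈ typ E c H sᶜ, ℓ + 1 ≤ (com G u v).card := by
    intro u hu v hv
    have := typ_com G E c H sᶜ hE' _ hD u v hu hv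
    rw [hsd] at this
    have : ((ℓ + 1 : ℕ) : ℝ) ≤ (com G u v).card := by linarith
    exact_mod_cast this
  have key : ∀ v ∈ H, 3 ≤ ((typ E c H s).filter (G.Adj v)).card ∨
      3 ≤ ((typ E c H sᶜ).filter (G.Adj v)).card := by
    intro v hv
    by_contra hcon
    push Not at hcon
    have e1 : H.filter (G.Adj v) ⊆ ((typ E c H s).filter (G.Adj v) ∪
        (typ E c H sᶜ).filter (G.Adj v)) ∪ Finset.univ.filter fun v => c < (outE E v : ℝ) := by
      intro w hw
      rw [Finset.mem_filter] at hw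
      simp only [Finset.mem_union, Finset.mem_filter, typ, Finset.mem_inter, Finset.mem_univ,
        true_and, Finset.mem_compl]
      by_cases q1 : (outE E w : ℝ) ≤ c
      · by_cases q2 : w ∈ s
        · exact Or.inl (Or.inl ⟨⟨⟨hw.1, q2⟩, q1⟩, hw.2⟩)
        · exact Or.inl (Or.inr ⟨⟨⟨hw.1, q2⟩, q1⟩, hw.2⟩)
      · exact Or.inr (not_le.mp q1)
    have e2 := (Finset.card_le_card e1).trans (Finset.card_union_le _ _)
    have e3 := Finset.card_union_le ((typ E c H s).filter (G.Adj v)) ((typ E c H sᶜ).filter (G.Adj v))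
    have e4 : (H.filter (G.Adj v)).card ≤ 4 + (Finset.univ.filter fun v => c < (outE E v : ℝ)).card := by
      omega
    have e5 : ((H.filter (G.Adj v)).card : ℝ) ≤
        4 + (Finset.univ.filter fun v => c < (outE E v : ℝ)).card := by exact_mod_cast e4
    have e6 := atyp_card E c hc0 hEc
    have e7 := hD v hv
    linarith
  exact cycles_of_dense G _ _ (ℓ + 1) c1 c2 k1 k2 x y z hxy hyz hzx (key x hx) (key y hy) (key z hz)
    ℓ h3 le_rfl

theorem four_mul_sq_div (n : ℕ) : n ^ 2 ≤ 4 * (n ^ 2 / 4) + 1 := by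
  rcases Nat.even_or_odd' n with ⟨c, hc | hc⟩
  · have : n ^ 2 = 4 * (c ^ 2) := by rw [hc]; ring
    rw [this, Nat.mul_div_cancel_left _ (by norm_num)]; omega
  · have : n ^ 2 = 4 * (c ^ 2 + c) + 1 := by rw [hc]; ring
    rw [this]; omega

/-- nearly bipartite graphs of large spectral radius -/
theorem near_bip (s : Finset V) (E : Finset (V × V)) (hn : 10 ^ 9 ≤ Fintype.card V)
    (hE : ∀ v w, G.Adj v w → (v ∈ s ↔ w ∈ s) → (v, w) ∈ E)
    (hEc : (E.card : ℝ) ≤ (1 / 10 ^ 9 * (Fintype.card V : ℝ)) ^ 2)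
    (hlam : √(((Fintype.card V) ^ 2 / 4 : ℕ) : ℝ) < lam G)
    (ℓ : ℕ) (h3 : 3 ≤ ℓ) (hℓ : (ℓ : ℝ) ≤ 0.385 * Fintype.card V) :
    ∃ l : List V, l.length = ℓ ∧ CycList G l := by
  have hne : Nonempty V := Fintype.card_pos_iff.mp (by omega)
  have hlam0 : 0 ≤ lam G := lam_nonneg G
  have hlam2 : (((Fintype.card V) ^ 2 / 4 : ℕ) : ℝ) < lam G ^ 2 := by
    have := Real.sqrt_lt' (lt_of_le_of_lt (Real.sqrt_nonneg _) hlam) |>.mp hlam
    exact this
  have hsq : ((Fintype.card V : ℝ)) ^ 2 ≤ 4 * (((Fintype.card V) ^ 2 / 4 : ℕ) : ℝ) + 1 := by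
    exact_mod_cast four_mul_sq_div (Fintype.card V)
  obtain ⟨n, hnd⟩ : ∃ n : ℝ, n = Fintype.card V := ⟨_, rfl⟩
  have hn9 : (10:ℝ) ^ 9 ≤ n := by rw [hnd]; exact_mod_cast hn
  rw [← hnd] at hEc hℓ hsq
  set Φ : Finset V → ℝ := fun H => 4 * lam (ind G H) ^ 2 - (H.card : ℝ) ^ 2 - n * (n - H.card) / 2000
    with hΦ
  obtain ⟨H, -, hmax⟩ := Finset.exists_max_image (Finset.univ : Finset (Finset V)) Φ
    Finset.univ_nonempty
  have hΦH : -1 < Φ H := by
    have h1 := hmax Finset.univ (Finset.mem_univ _)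
    have h2 : Φ Finset.univ = 4 * lam G ^ 2 - n ^ 2 := by
      simp only [hΦ, ind_univ, Finset.card_univ, ← hnd]; ring
    rw [h2] at h1
    linarith
  have hHn : (H.card : ℝ) ≤ n := by rw [hnd]; exact_mod_cast Finset.card_le_univ H
  obtain ⟨L, hL⟩ : ∃ L, L = lam (ind G H) := ⟨_, rfl⟩
  obtain ⟨h, hh⟩ : ∃ h : ℝ, h = H.card := ⟨_, rfl⟩
  have hL0 : 0 ≤ L := by rw [hL]; exact lam_nonneg _
  obtain ⟨x, hx0, hxne, hx, -⟩ := lam_spec (ind G H)
  rw [← hL] at hx
  have hS := S2_pos x hxne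
  have hLup : L ≤ h / 2 + 1 / 10 ^ 9 * n := by
    have h1 := Q_near G s H (1 / 10 ^ 9) (by positivity) E hE (by rw [← hnd]; exact hEc) x hx0
    have h2 : Q (ind G H) x = L * S2 x := by
      unfold Q S2
      rw [Finset.mul_sum]
      exact Finset.sum_congr rfl fun v _ => by rw [hx v]; ring
    rw [h2, ← hh, ← hnd] at h1
    exact le_of_mul_le_mul_right h1 hS
  have hΦH' : -1 < 4 * L ^ 2 - h ^ 2 - n * (n - h) / 2000 := by
    rw [hL, hh]; exact hΦH
  rw [← hh] at hHn
  have hlarge := num_h_large n h L hn9 (by rw [hh]; exact Nat.cast_nonneg _) hHn hL0 hLup hΦH'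
  have hh8 : (10:ℝ) ^ 8 ≤ h := by nlinarith
  have hnh : 0 ≤ n * (n - h) := mul_nonneg (by linarith) (by linarith)
  -- weights
  have hw : ∀ v ∈ H, 999 / 1000 ≤ (x v ^ 2 / S2 x) * h := by
    intro v hv
    obtain ⟨t, ht⟩ : ∃ t, t = x v ^ 2 / S2 x := ⟨_, rfl⟩
    rw [← ht]
    have h1 := lam_erase G H v x L hx
    have h2 : x v ^ 2 = t * S2 x := by rw [ht]; field_simp
    rw [h2] at h1
    have h3' : L * (1 - 2 * t) ≤ lam (ind G (H.erase v)) * (1 - t) := by
      have e : (L * (1 - 2 * t)) * S2 x ≤ (lam (ind G (H.erase v)) * (1 - t)) * S2 x := by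
        calc (L * (1 - 2 * t)) * S2 x = L * (S2 x - 2 * (t * S2 x)) := by ring
          _ ≤ _ := h1
          _ = _ := by ring
      exact le_of_mul_le_mul_right e hS
    have h4 := hmax (H.erase v) (Finset.mem_univ _)
    have h5 : ((H.erase v).card : ℝ) = h - 1 := by
      rw [Finset.card_erase_of_mem hv, hh, Nat.cast_sub (Finset.card_pos.mpr ⟨v, hv⟩)]; simp
    simp only [hΦ, h5, ← hL, ← hh] at h4
    exact num_weight n h L (lam (ind G (H.erase v))) t hn9 hHn hlarge hL0 (lam_nonneg _)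
      (by rw [ht]; exact div_nonneg (sq_nonneg _) hS.le) hLup h3' h4
  -- minimum degree
  have hD : ∀ v ∈ H, 0.49 * (H.card : ℝ) ≤ ((H.filter (G.Adj v)).card : ℝ) := by
    intro v hv
    obtain ⟨d, hd⟩ : ∃ d : ℝ, d = (H.filter (G.Adj v)).card := ⟨_, rfl⟩
    rw [← hd, ← hh]
    set N := H.filter (G.Adj v) with hN
    have e1 : L * x v = ∑ w ∈ N, x w := by
      rw [← hx v]
      unfold nb
      rw [← Finset.sum_filter]
      apply Finset.sum_congr _ fun _ _ => rfl
      ext w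
      simp only [Finset.mem_filter, Finset.mem_univ, true_and, hN, ind_adj, hv]
      tauto
    have e2 : (∑ w ∈ N, x w) ^ 2 ≤ N.card * ∑ w ∈ N, x w ^ 2 := sq_sum_le_card_mul_sum_sq
    have e3 : (∑ w ∈ N, x w ^ 2) + ∑ w ∈ H \ N, x w ^ 2 ≤ S2 x := by
      rw [← Finset.sum_union Finset.disjoint_sdiff, Finset.union_sdiff_of_subset (Finset.filter_subset _ _)]
      unfold S2
      exact Finset.sum_le_univ_sum_of_nonneg fun v => sq_nonneg _
    have hhp : 0 < h := by linarith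
    have e4 : (h - d) * ((999 / 1000) / h * S2 x) ≤ ∑ w ∈ H \ N, x w ^ 2 := by
      have e5 : ((H \ N).card : ℝ) = h - d := by
        rw [Finset.card_sdiff_of_subset (Finset.filter_subset _ _),
          Nat.cast_sub (Finset.card_le_card (Finset.filter_subset _ _)), hh, hd]
      rw [← e5, ← nsmul_eq_mul]
      apply Finset.card_nsmul_le_sum
      intro w hw'
      have := hw w (Finset.mem_sdiff.mp hw').1
      rw [div_mul_eq_mul_div, div_le_iff₀ hhp]
      have e6 : x w ^ 2 * h = x w ^ 2 / S2 x * h * S2 x := by field_simp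
      rw [e6]
      exact mul_le_mul_of_nonneg_right this hS.le
    have e7 : L ^ 2 * (x v ^ 2 / S2 x) ≤ d * (1 - (h - d) * ((999 / 1000) / h)) := by
      have e8 : L ^ 2 * x v ^ 2 ≤ d * (S2 x - (h - d) * ((999 / 1000) / h * S2 x)) := by
        calc L ^ 2 * x v ^ 2 = (∑ w ∈ N, x w) ^ 2 := by rw [← e1]; ring
          _ ≤ N.card * ∑ w ∈ N, x w ^ 2 := e2
          _ ≤ d * (S2 x - (h - d) * ((999 / 1000) / h * S2 x)) := by
              rw [hd]
              apply mul_le_mul_of_nonneg_left _ (Nat.cast_nonneg _)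
              rw [hd] at e4
              linarith
      have e9 : L ^ 2 * (x v ^ 2 / S2 x) = L ^ 2 * x v ^ 2 / S2 x := by ring
      rw [e9, div_le_iff₀ hS]
      calc L ^ 2 * x v ^ 2 ≤ _ := e8
        _ = _ := by ring
    exact num_deg h L _ d hh8 (by rw [hd]; exact Nat.cast_nonneg _) (hw v hv) (by linarith) e7
  -- triangle
  have htri : ∃ a b c, (ind G H).Adj a b ∧ (ind G H).Adj b c ∧ (ind G H).Adj c a := by
    by_contra hcon
    push Not at hcon
    have h1 := lam_sq_le_of_triangleFree (ind G H) H (fun v w h => h.2)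
      (fun a b c h1 h2 h3 => hcon a b c h1 h2 h3)
    rw [← hL] at h1
    by_cases hHu : H = Finset.univ
    · rw [hL, hHu, ind_univ, Finset.card_univ] at h1
      linarith
    · have h2 : H.card < Fintype.card V := by
        rw [← Finset.card_univ]
        exact Finset.card_lt_card (Finset.ssubset_univ_iff.mpr hHu)
      have h3 : h ≤ n - 1 := by
        rw [hh, hnd]
        have : ((H.card + 1 : ℕ) : ℝ) ≤ Fintype.card V := by exact_mod_cast h2
        push_cast at this
        linarith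
      have h4 : ((H.card ^ 2 / 4 : ℕ) : ℝ) ≤ h ^ 2 / 4 := by
        rw [hh]
        have := @Nat.cast_div_le ℝ _ _ _ (H.card ^ 2) 4
        push_cast at this
        exact this
      nlinarith
  obtain ⟨a, b, c, hab, hbc, hca⟩ := htri
  exact near_comb G s H E n hn9 hE hEc (by rw [← hh]; exact hlarge) (by rw [← hh]; exact hHn) hD
    a b c hab.1 hbc.1 hca.1 hab.2.1 hbc.2.1 hca.2.1 ℓ h3 hℓ

end

end Pool.Agent.H219R2.Cyc
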