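import Mathlib
import Pool.Agent.H219R2.Cyc.Embed

set_option autoImplicit false

namespace Pool.Agent.H219R2.Cyc

open Finset

section

variable {V : Type} [Fintype V] [DecidableEq V] (G : SimpleGraph V) [DecidableRel G.Adj]

omit [Fintype V] in
theorem good_of_uniform (ε0 η : ℝ) (S T : Finset V) (hU : G.IsUniform ε0 S T)
    (hd : ε0 + η ≤ (G.edgeDensity S T : ℝ)) (q : ℕ) (hq1 : 1 ≤ q) (hqS : (S.card : ℝ) * ε0 ≤ q)
    (hqT : (T.card : ℝ) * ε0 ≤ q) : Good G q η S T := by
  intro X hX Y hY hqX hqY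
  have h1 := hU hX hY (hqS.trans (by exact_mod_cast hqX)) (hqT.trans (by exact_mod_cast hqY))
  rw [abs_lt] at h1
  have h2 : η < (G.edgeDensity X Y : ℝ) := by linarith [h1.1]
  by_contra hcon
  push Not at hcon
  have hXpos : (0:ℝ) < X.card := by exact_mod_cast (by omega : 0 < X.card)
  have hYpos : (0:ℝ) < Y.card := by exact_mod_cast (by omega : 0 < Y.card)
  have h3 : ((G.interedges X Y).card : ℝ) = ∑ x ∈ X, ((Y.filter (G.Adj x)).card : ℝ) := by
    rw [← Nat.cast_sum]
    congr 1
    rw [Finset.card_eq_sum_card_fiberwise (f := fun p : V × V => p.1) (t := X)]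
    · apply Finset.sum_congr rfl
      intro x hx
      apply Finset.card_bij (fun p _ => p.2)
      · intro p hp
        rw [Finset.mem_filter, SimpleGraph.mem_interedges_iff] at hp
        rw [Finset.mem_filter]
        exact ⟨hp.1.2.1, hp.2 ▸ hp.1.2.2⟩
      · intro p hp p' hp' he
        rw [Finset.mem_filter] at hp hp'
        exact Prod.ext (hp.2.trans hp'.2.symm) he
      · intro y hy
        rw [Finset.mem_filter] at hy
        exact ⟨(x, y), by rw [Finset.mem_filter, SimpleGraph.mem_interedges_iff]; exact ⟨⟨hx, hy.1, hy.2⟩, rfl⟩, rfl⟩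
    · intro p hp
      rw [Finset.mem_coe, SimpleGraph.mem_interedges_iff] at hp
      exact Finset.mem_coe.mpr hp.1
  have h4 : ((G.interedges X Y).card : ℝ) ≤ X.card * (η * Y.card) := by
    rw [h3, ← nsmul_eq_mul]
    exact Finset.sum_le_card_nsmul _ _ _ fun x hx => (hcon x hx).le
  have h5 : (G.edgeDensity X Y : ℝ) = ((G.interedges X Y).card : ℝ) / (X.card * Y.card) := by
    rw [SimpleGraph.edgeDensity_def]
    push_cast
    rfl
  rw [h5, lt_div_iff₀ (mul_pos hXpos hYpos)] at h2
  nlinarith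

/-- the output of the regularity lemma in the form used here -/
theorem reduced_exists (ε0 η : ℝ) (hε0 : 0 < ε0) (hη : 0 < η) (hεη : ε0 ≤ η) (l : ℕ)
    (hl : 4 / η ≤ l) (hlV : l ≤ Fintype.card V) (hV : 0 < Fintype.card V) :
    ∃ (ι : Type) (_ : Fintype ι) (_ : DecidableEq ι) (Γ : SimpleGraph ι) (π : V → ι)
      (E : Finset (V × V)),
      l ≤ Fintype.card ι ∧ Fintype.card ι ≤ SzemerediRegularity.bound ε0 l ∧ 0 < Fintype.card ι ∧
      (∀ i, Fintype.card V / Fintype.card ι ≤ (Finset.univ.filter fun v => π v = i).card) ∧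
      (∀ i, (Finset.univ.filter fun v => π v = i).card ≤ Fintype.card V / Fintype.card ι + 1) ∧
      (∀ i j, Γ.Adj i j → ∀ q : ℕ, 1 ≤ q →
        ((Fintype.card V / Fintype.card ι + 1 : ℕ) : ℝ) * ε0 ≤ q →
        Good G q η (Finset.univ.filter fun v => π v = i) (Finset.univ.filter fun v => π v = j)) ∧
      (∀ v w, G.Adj v w → (v, w) ∉ E → Γ.Adj (π v) (π w)) ∧
      (E.card : ℝ) ≤ 13 * η * (Fintype.card V : ℝ) ^ 2 := by
  classical
  obtain ⟨P, hPe, hPl, hPb, hPU⟩ := szemeredi_regularity G hε0 hlV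
  have hcardι : Fintype.card {s // s ∈ P.parts} = P.parts.card := Fintype.card_coe _
  have hne : (Finset.univ : Finset V).Nonempty := by
    rw [← Finset.card_pos, Finset.card_univ]; exact hV
  have hpos : 0 < P.parts.card := (P.parts_nonempty hne.ne_empty).card_pos
  set Γ : SimpleGraph {s // s ∈ P.parts} :=
    { Adj := fun i j => i ≠ j ∧ G.IsUniform ε0 i.1 j.1 ∧ 2 * η ≤ (G.edgeDensity i.1 j.1 : ℝ)
      symm := ⟨fun i j h => ⟨h.1.symm, h.2.1.symm, by rw [SimpleGraph.edgeDensity_comm]; exact h.2.2⟩⟩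
      loopless := ⟨fun i h => h.1 rfl⟩ } with hΓ
  set π : V → {s // s ∈ P.parts} := fun v => ⟨P.part v, P.part_mem.2 (Finset.mem_univ v)⟩ with hπ
  have hfib : ∀ i : {s // s ∈ P.parts}, (Finset.univ.filter fun v => π v = i) = i.1 := by
    intro i
    ext v
    rw [Finset.mem_filter, hπ]
    simp only [Finset.mem_univ, true_and, Subtype.ext_iff]
    exact P.part_eq_iff_mem i.2
  set E1 := (P.nonUniforms G ε0).biUnion fun (U, W) ↦ U ×ˢ W with hE1
  set E2 := P.parts.biUnion Finset.offDiag with hE2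
  set E3 := (P.sparsePairs G (2 * η)).biUnion fun (U, W) ↦ G.interedges U W with hE3
  refine ⟨{s // s ∈ P.parts}, inferInstance, inferInstance, Γ, π, E1 ∪ E2 ∪ E3, ?_, ?_, ?_, ?_, ?_,
    ?_, ?_, ?_⟩
  · rw [hcardι]; exact hPl
  · rw [hcardι]; exact hPb
  · rw [hcardι]; exact hpos
  · intro i
    rw [hfib, hcardι]
    exact hPe.average_le_card_part i.2
  · intro i
    rw [hfib, hcardι]
    exact hPe.card_part_le_average_add_one i.2
  · intro i j hij q hq1 hq
    rw [hfib, hfib]
    rw [hcardι] at hq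
    have hle : ∀ i : {s // s ∈ P.parts}, (i.1.card : ℝ) * ε0 ≤ q := by
      intro i
      have h1 : i.1.card ≤ Fintype.card V / P.parts.card + 1 := hPe.card_part_le_average_add_one i.2
      refine le_trans (mul_le_mul_of_nonneg_right ?_ hε0.le) hq
      exact_mod_cast h1
    refine good_of_uniform G ε0 η i.1 j.1 hij.2.1 ?_ q hq1 (hle i) (hle j)
    have := hij.2.2
    linarith
  · intro v w hvw hE
    rw [Finset.mem_union, Finset.mem_union] at hE
    push Not at hE
    obtain ⟨⟨h1, h2⟩, h3⟩ := hE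
    have hvU : v ∈ P.part v := P.mem_part_self.mpr (Finset.mem_univ v)
    have hwU : w ∈ P.part w := P.mem_part_self.mpr (Finset.mem_univ w)
    have hv : P.part v ∈ P.parts := P.part_mem.2 (Finset.mem_univ v)
    have hw : P.part w ∈ P.parts := P.part_mem.2 (Finset.mem_univ w)
    have hne : P.part v ≠ P.part w := by
      intro he
      apply h2
      rw [hE2, Finset.mem_biUnion]
      exact ⟨P.part v, hv, by rw [Finset.mem_offDiag]; exact ⟨hvU, by rw [he]; exact hwU, hvw.ne⟩⟩
    refine ⟨?_, ?_, ?_⟩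
    · intro he
      exact hne (congrArg Subtype.val he)
    · by_contra hU
      apply h1
      rw [hE1, Finset.mem_biUnion]
      exact ⟨(P.part v, P.part w), by rw [Finpartition.mk_mem_nonUniforms]; exact ⟨hv, hw, hne, hU⟩,
        Finset.mk_mem_product hvU hwU⟩
    · by_contra hd
      push Not at hd
      apply h3
      rw [hE3, Finset.mem_biUnion]
      exact ⟨(P.part v, P.part w), by rw [Finpartition.mk_mem_sparsePairs]; exact ⟨hv, hw, hne, hd⟩,
        by rw [SimpleGraph.mem_interedges_iff]; exact ⟨hvU, hwU, hvw⟩⟩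
  · have b1 : (E1.card : ℝ) < 4 * ε0 * ((Finset.univ : Finset V).card : ℝ) ^ 2 :=
      hPe.sum_nonUniforms_lt hne hε0 hPU
    have b2 : (E2.card : ℝ) ≤ η / 2 * ((Finset.univ : Finset V).card : ℝ) ^ 2 :=
      hPe.card_biUnion_offDiag_le hη (hl.trans (by exact_mod_cast hPl))
    have b3 : (E3.card : ℝ) ≤ 4 * (2 * η) * ((Finset.univ : Finset V).card : ℝ) ^ 2 :=
      hPe.card_interedges_sparsePairs_le (by positivity)
    rw [Finset.card_univ] at b1 b2 b3
    have b4 : ((E1 ∪ E2 ∪ E3).card : ℝ) ≤ E1.card + E2.card + E3.card := by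
      have := (Finset.card_union_le (E1 ∪ E2) E3).trans (Nat.add_le_add_right (Finset.card_union_le E1 E2) _)
      exact_mod_cast this
    have b5 : 0 ≤ (Fintype.card V : ℝ) ^ 2 := sq_nonneg _
    nlinarith

end

end Pool.Agent.H219R2.Cyc
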