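import Mathlib
import Pool.Agent.H219R2.Cyc.NearBip

set_option autoImplicit false

namespace Pool.Agent.H219R2.Cyc

open Finset Pool.Agent.Helper91.EC

section

variable {V ι : Type} [Fintype V] [Fintype ι]

open Classical in
/-- spectral information passes to the reduced graph -/
theorem transfer [DecidableEq ι] [Nonempty V] (G : SimpleGraph V) (Γ : SimpleGraph ι) (π : V → ι)
    (E : Finset (V × V)) (hE : ∀ v w, G.Adj v w → (v, w) ∉ E → Γ.Adj (π v) (π w)) (m1 D : ℝ)
    (hm : ∀ i, ((Finset.univ.filter fun v => π v = i).card : ℝ) ≤ m1)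
    (hD : (E.card : ℝ) ≤ D) :
    ∃ y : ι → ℝ, (∀ i, 0 ≤ y i) ∧ 0 < ∑ i, y i ^ 2 ∧
      (lam G - √D) * ∑ i, y i ^ 2 ≤ m1 * ∑ i, ∑ j, (if Γ.Adj i j then y i * y j else 0) := by
  obtain ⟨x, hx0, hxne, hx, -⟩ := lam_spec G
  have hS := S2_pos x hxne
  set F : ι → Finset V := fun i => Finset.univ.filter fun v => π v = i with hF
  set y : ι → ℝ := fun i => √(∑ v ∈ F i, x v ^ 2) with hy
  have hy0 : ∀ i, 0 ≤ y i := fun i => Real.sqrt_nonneg _
  have hy2 : ∀ i, y i ^ 2 = ∑ v ∈ F i, x v ^ 2 := fun i =>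
    Real.sq_sqrt (Finset.sum_nonneg fun _ _ => sq_nonneg _)
  have hyS : ∑ i, y i ^ 2 = S2 x := by
    simp only [hy2]
    exact Finset.sum_fiberwise Finset.univ π (fun v => x v ^ 2)
  refine ⟨y, hy0, by rw [hyS]; exact hS, ?_⟩
  rw [hyS]
  have hQ : Q G x = lam G * S2 x := by
    unfold Q S2
    rw [Finset.mul_sum]
    exact Finset.sum_congr rfl fun v _ => by rw [hx v]; ring
  have hbad := bad_pairs_bound E x D hD
  have h1 : Q G x ≤ ∑ v, ∑ w, (if Γ.Adj (π v) (π w) then x v * x w else 0) +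
      ∑ v, ∑ w, (if (v, w) ∈ E then x v * x w else 0) := by
    unfold Q nb
    rw [← Finset.sum_add_distrib]
    refine Finset.sum_le_sum fun v _ => ?_
    rw [Finset.mul_sum, ← Finset.sum_add_distrib]
    refine Finset.sum_le_sum fun w _ => ?_
    have hvw := mul_nonneg (hx0 v) (hx0 w)
    by_cases ha : G.Adj v w
    · rw [if_pos ha]
      by_cases hE' : (v, w) ∈ E
      · rw [if_pos hE']
        split_ifs <;> linarith
      · rw [if_pos (hE v w ha hE'), if_neg hE', add_zero]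
    · rw [if_neg ha, mul_zero]
      split_ifs <;> linarith
  have h2 : ∑ v, ∑ w, (if Γ.Adj (π v) (π w) then x v * x w else 0) =
      ∑ i, ∑ j, (if Γ.Adj i j then (∑ v ∈ F i, x v) * (∑ w ∈ F j, x w) else 0) := by
    rw [← Finset.sum_fiberwise Finset.univ π]
    refine Finset.sum_congr rfl fun i _ => ?_
    have e1 : ∀ v ∈ F i, ∑ w, (if Γ.Adj (π v) (π w) then x v * x w else 0) =
        ∑ j, (if Γ.Adj i j then x v * (∑ w ∈ F j, x w) else 0) := by
      intro v hv
      have hvi : π v = i := (Finset.mem_filter.mp hv).2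
      rw [hvi, ← Finset.sum_fiberwise Finset.univ π]
      refine Finset.sum_congr rfl fun j _ => ?_
      have e2 : ∀ w ∈ F j, (if Γ.Adj i (π w) then x v * x w else 0) =
          (if Γ.Adj i j then x v * x w else 0) := by
        intro w hw
        rw [(Finset.mem_filter.mp hw).2]
      rw [Finset.sum_congr rfl e2]
      split_ifs
      · rw [Finset.mul_sum]
      · simp
    rw [Finset.sum_congr rfl e1, Finset.sum_comm]
    refine Finset.sum_congr rfl fun j _ => ?_
    split_ifs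
    · rw [Finset.sum_mul]
    · simp
  have h3 : ∑ i, ∑ j, (if Γ.Adj i j then (∑ v ∈ F i, x v) * (∑ w ∈ F j, x w) else 0) ≤
      m1 * ∑ i, ∑ j, (if Γ.Adj i j then y i * y j else 0) := by
    rw [Finset.mul_sum]
    refine Finset.sum_le_sum fun i _ => ?_
    rw [Finset.mul_sum]
    refine Finset.sum_le_sum fun j _ => ?_
    split_ifs
    · have hm0 : 0 ≤ m1 := le_trans (Nat.cast_nonneg _) (hm i)
      have hX : ∀ i, (∑ v ∈ F i, x v) ^ 2 ≤ m1 * y i ^ 2 := by
        intro i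
        rw [hy2]
        calc (∑ v ∈ F i, x v) ^ 2 ≤ (F i).card * ∑ v ∈ F i, x v ^ 2 := sq_sum_le_card_mul_sum_sq
          _ ≤ m1 * ∑ v ∈ F i, x v ^ 2 :=
            mul_le_mul_of_nonneg_right (hm i) (Finset.sum_nonneg fun _ _ => sq_nonneg _)
      have e1 : ((∑ v ∈ F i, x v) * (∑ w ∈ F j, x w)) ^ 2 ≤ (m1 * (y i * y j)) ^ 2 := by
        rw [mul_pow]
        calc (∑ v ∈ F i, x v) ^ 2 * (∑ w ∈ F j, x w) ^ 2 ≤ (m1 * y i ^ 2) * (m1 * y j ^ 2) :=
              mul_le_mul (hX i) (hX j) (sq_nonneg _) (by positivity)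
          _ = _ := by ring
      exact abs_le_of_sq_le_sq' e1 (mul_nonneg hm0 (mul_nonneg (hy0 i) (hy0 j))) |>.2
    · simp
  rw [h2] at h1
  rw [hQ] at h1
  have : lam G * S2 x ≤ m1 * ∑ i, ∑ j, (if Γ.Adj i j then y i * y j else 0) + √D * S2 x :=
    h1.trans (add_le_add h3 hbad)
  linarith

open Classical in
theorem exists_component (Γ : SimpleGraph ι) (y : ι → ℝ) (hy0 : ∀ i, 0 ≤ y i)
    (hpos : 0 < ∑ i, y i ^ 2) (θ : ℝ)
    (h : θ * ∑ i, y i ^ 2 ≤ ∑ i, ∑ j, (if Γ.Adj i j then y i * y j else 0)) :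
    ∃ b : ι, 0 < ∑ i ∈ Finset.univ.filter (Γ.Reachable b), y i ^ 2 ∧
      θ * ∑ i ∈ Finset.univ.filter (Γ.Reachable b), y i ^ 2 ≤
      ∑ i ∈ Finset.univ.filter (Γ.Reachable b), ∑ j ∈ Finset.univ.filter (Γ.Reachable b),
        (if Γ.Adj i j then y i * y j else 0) := by
  by_contra hcon
  push Not at hcon
  set f : ι → ℝ := fun i => θ * y i ^ 2 - ∑ j, (if Γ.Adj i j then y i * y j else 0) with hf
  have hsum : ∑ i, f i ≤ 0 := by
    rw [hf, Finset.sum_sub_distrib, ← Finset.mul_sum]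
    linarith
  set cc := Finset.univ.image Γ.connectedComponentMk with hcc
  have hfib : ∑ c ∈ cc, ∑ i ∈ Finset.univ.filter (fun i => Γ.connectedComponentMk i = c), f i =
      ∑ i, f i :=
    Finset.sum_fiberwise_of_maps_to (fun i _ => Finset.mem_image_of_mem _ (Finset.mem_univ i)) f
  have hK : ∀ b, Finset.univ.filter (fun i => Γ.connectedComponentMk i = Γ.connectedComponentMk b) =
      Finset.univ.filter (Γ.Reachable b) := by
    intro b
    ext i
    simp only [Finset.mem_filter, Finset.mem_univ, true_and, SimpleGraph.ConnectedComponent.eq]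
    exact ⟨fun h => h.symm, fun h => h.symm⟩
  have hval : ∀ b, ∑ i ∈ Finset.univ.filter (Γ.Reachable b), f i =
      θ * ∑ i ∈ Finset.univ.filter (Γ.Reachable b), y i ^ 2 -
      ∑ i ∈ Finset.univ.filter (Γ.Reachable b), ∑ j ∈ Finset.univ.filter (Γ.Reachable b),
        (if Γ.Adj i j then y i * y j else 0) := by
    intro b
    rw [hf, Finset.sum_sub_distrib, ← Finset.mul_sum]
    congr 1
    refine Finset.sum_congr rfl fun i hi => ?_
    rw [Finset.sum_filter]
    refine Finset.sum_congr rfl fun j _ => ?_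
    by_cases ha : Γ.Adj i j
    · have hr : Γ.Reachable b j := (Finset.mem_filter.mp hi).2.trans ha.reachable
      rw [if_pos ha, if_pos hr]
    · rw [if_neg ha]; simp
  have hnn : ∀ b, 0 ≤ ∑ i ∈ Finset.univ.filter (Γ.Reachable b), f i := by
    intro b
    by_cases hb : 0 < ∑ i ∈ Finset.univ.filter (Γ.Reachable b), y i ^ 2
    · have := hcon b hb
      rw [hval]; linarith
    · have hz : ∑ i ∈ Finset.univ.filter (Γ.Reachable b), y i ^ 2 = 0 :=
        le_antisymm (not_lt.mp hb) (Finset.sum_nonneg fun _ _ => sq_nonneg _)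
      have hz2 := (Finset.sum_eq_zero_iff_of_nonneg (fun _ _ => sq_nonneg _)).mp hz
      have : ∑ i ∈ Finset.univ.filter (Γ.Reachable b), f i = 0 := by
        apply Finset.sum_eq_zero
        intro i hi
        have hi0 : y i = 0 := by have := hz2 i hi; simpa using this
        simp [hf, hi0]
      rw [this]
  obtain ⟨b, -, hb⟩ : ∃ b ∈ (Finset.univ : Finset ι), 0 < y b ^ 2 := by
    by_contra hc
    push Not at hc
    have : ∑ i, y i ^ 2 ≤ 0 := Finset.sum_nonpos fun i hi => hc i hi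
    linarith
  have hbK : 0 < ∑ i ∈ Finset.univ.filter (Γ.Reachable b), y i ^ 2 :=
    Finset.sum_pos' (fun _ _ => sq_nonneg _) ⟨b, by simp, hb⟩
  have hposb : 0 < ∑ i ∈ Finset.univ.filter (Γ.Reachable b), f i := by
    have := hcon b hbK
    rw [hval]; linarith
  have hlt : 0 < ∑ c ∈ cc, ∑ i ∈ Finset.univ.filter (fun i => Γ.connectedComponentMk i = c), f i := by
    apply Finset.sum_pos'
    · intro c hc
      rw [hcc, Finset.mem_image] at hc
      obtain ⟨a, -, rfl⟩ := hc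
      rw [hK]; exact hnn a
    · exact ⟨Γ.connectedComponentMk b, Finset.mem_image_of_mem _ (Finset.mem_univ b), by
        rw [hK]; exact hposb⟩
  rw [hfib] at hlt
  linarith

open Classical in
theorem exists_component' (Γ : SimpleGraph ι) (y : ι → ℝ) (hy0 : ∀ i, 0 ≤ y i)
    (hpos : 0 < ∑ i, y i ^ 2) (θ : ℝ)
    (h : θ * ∑ i, y i ^ 2 ≤ ∑ i, ∑ j, (if Γ.Adj i j then y i * y j else 0)) :
    ∃ (b : ι) (K : Finset ι), (∀ i, i ∈ K ↔ Γ.Reachable b i) ∧ 0 < ∑ i ∈ K, y i ^ 2 ∧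
      θ * ∑ i ∈ K, y i ^ 2 ≤ ∑ i ∈ K, ∑ j ∈ K, (if Γ.Adj i j then y i * y j else 0) := by
  obtain ⟨b, h1, h2⟩ := exists_component Γ y hy0 hpos θ h
  exact ⟨b, _, fun i => by simp, h1, h2⟩

end

end Pool.Agent.H219R2.Cyc
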