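import Mathlib

set_option autoImplicit false

namespace Pool.Agent.H219R2.Cyc

open Finset SimpleGraph

section

variable {ι : Type} [DecidableEq ι] (Γ : SimpleGraph ι)

/-- number of visits of `r` by the walk `p` (the starting point is not counted) -/
def cnt {a b : ι} (p : Γ.Walk a b) (r : ι) : ℕ := p.support.tail.count r

theorem cnt_append {a b c : ι} (p : Γ.Walk a b) (p' : Γ.Walk b c) (r : ι) :
    cnt Γ (p.append p') r = cnt Γ p r + cnt Γ p' r := by
  unfold cnt
  rw [Walk.tail_support_append, List.count_append]

theorem cnt_le {a b : ι} (p : Γ.Walk a b) (r : ι) : cnt Γ p r ≤ p.length := by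
  unfold cnt
  have h := List.count_le_length (a := r) (l := p.support.tail)
  rw [List.length_tail, Walk.length_support] at h
  exact h

/-- going back and forth `n` times on an edge -/
def bounce {s t : ι} (h : Γ.Adj s t) : ℕ → Γ.Walk s s
  | 0 => Walk.nil
  | n + 1 => Walk.cons h (Walk.cons h.symm (bounce h n))

theorem bounce_length {s t : ι} (h : Γ.Adj s t) (n : ℕ) : (bounce Γ h n).length = 2 * n := by
  induction n with
  | zero => rfl
  | succ n ih => simp only [bounce, Walk.length_cons, ih]; ring

theorem bounce_cnt {s t : ι} (h : Γ.Adj s t) (n : ℕ) (r : ι) :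
    cnt Γ (bounce Γ h n) r ≤ (if r = s then n else 0) + (if r = t then n else 0) := by
  induction n with
  | zero => simp [bounce, cnt]
  | succ n ih =>
    have h1 : cnt Γ (bounce Γ h (n+1)) r = cnt Γ (bounce Γ h n) r + (if s = r then 1 else 0)
        + (if t = r then 1 else 0) := by
      unfold cnt
      have : (bounce Γ h (n+1)).support = s :: t :: (bounce Γ h n).support := by
        simp [bounce, Walk.support_cons]
      rw [this, ← Walk.cons_tail_support (bounce Γ h n)]
      simp only [List.tail_cons, List.count_cons]
      simp only [beq_iff_eq]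
    rw [h1]
    by_cases c1 : r = s
    · subst c1
      by_cases c2 : r = t
      · exact absurd c2 h.ne
      · have c2' : ¬ t = r := fun e => c2 e.symm
        simp only [if_true, c2, c2', if_false] at ih ⊢
        omega
    · have c1' : ¬ s = r := fun e => c1 e.symm
      by_cases c2 : r = t
      · subst c2
        simp only [c1, c1', if_true, if_false] at ih ⊢
        omega
      · have c2' : ¬ t = r := fun e => c2 e.symm
        simp only [c1, c1', c2, c2', if_false] at ih ⊢
        omega

theorem big_walk (b : ι) (φ : ι → ι) (N : ℕ) : ∀ (l : List ι), l.Nodup →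
    (∀ s ∈ l, Γ.Adj s (φ s)) → (∀ s ∈ l, Γ.Reachable b s) →
    (∀ s ∈ l, ∀ s' ∈ l, φ s = φ s' → s = s') → ∀ R : ℕ, R ≤ l.length * N →
    ∃ p : Γ.Walk b b, p.length = 2 * (l.map (Γ.dist b)).sum + 2 * R ∧
      ∀ r, cnt Γ p r ≤ 2 * (l.map (Γ.dist b)).sum + (if r ∈ l then N else 0) +
        (if r ∈ l.map φ then N else 0) := by
  intro l
  induction l with
  | nil =>
    intro _ _ _ _ R hR
    have hR0 : R = 0 := by simpa using hR
    subst hR0
    exact ⟨Walk.nil, by simp, fun r => by simp [cnt]⟩
  | cons s l ih =>
    intro hnd hadj hreach hinj R hR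
    rw [List.nodup_cons] at hnd
    set n := min R N with hn
    obtain ⟨p, hp1, hp2⟩ := ih hnd.2 (fun t ht => hadj t (List.mem_cons_of_mem _ ht))
      (fun t ht => hreach t (List.mem_cons_of_mem _ ht))
      (fun t ht t' ht' => hinj t (List.mem_cons_of_mem _ ht) t' (List.mem_cons_of_mem _ ht'))
      (R - n) (by
        rw [List.length_cons, Nat.succ_mul] at hR
        rcases Nat.le_total R N with h | h
        · have : n = R := min_eq_left h
          rw [this]; simp
        · have : n = N := min_eq_right h
          omega)
    obtain ⟨w, hw⟩ := (hreach s List.mem_cons_self).exists_walk_length_eq_dist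
    have hs := hadj s List.mem_cons_self
    refine ⟨((w.append (bounce Γ hs n)).append w.reverse).append p, ?_, ?_⟩
    · rw [Walk.length_append, Walk.length_append, Walk.length_append, Walk.length_reverse,
        bounce_length, hw, hp1, List.map_cons, List.sum_cons]
      have : n ≤ R := min_le_left _ _
      omega
    · intro r
      rw [cnt_append, cnt_append, cnt_append, List.map_cons, List.sum_cons, List.map_cons]
      have h1 := hp2 r
      have h2 := cnt_le Γ w r
      have h3 := cnt_le Γ w.reverse r
      rw [Walk.length_reverse] at h3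
      rw [hw] at h2 h3
      have h4 := bounce_cnt Γ hs n r
      have h5 : n ≤ N := min_le_right _ _
      have h6 : (if r = s then n else 0) + (if r ∈ l then N else 0) ≤ (if r ∈ s :: l then N else 0) := by
        by_cases c : r = s
        · subst c
          simp only [if_true, hnd.1, if_false, List.mem_cons, true_or]
          omega
        · simp only [c, if_false, List.mem_cons, false_or]
          omega
      have h7 : (if r = φ s then n else 0) + (if r ∈ l.map φ then N else 0) ≤
          (if r ∈ φ s :: l.map φ then N else 0) := by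
        by_cases c : r = φ s
        · have hnot : r ∉ l.map φ := by
            rw [c, List.mem_map]
            rintro ⟨t, ht, hts⟩
            have := hinj t (List.mem_cons_of_mem _ ht) s List.mem_cons_self hts
            exact hnd.1 (this ▸ ht)
          simp only [c, if_true, List.mem_cons, true_or]
          rw [c] at hnot
          simp only [hnot, if_false]
          omega
        · simp only [c, if_false, List.mem_cons, false_or]
          omega
      omega

theorem dist_le_card [Fintype ι] (b s : ι) (h : Γ.Reachable b s) : Γ.dist b s ≤ Fintype.card ι := by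
  obtain ⟨w⟩ := h
  have h1 := (w.toPath : Γ.Path b s).property.length_lt
  exact (dist_le (w.toPath : Γ.Path b s).val).trans h1.le

/-- a closed walk of every length at least three, with few visits of every vertex -/
theorem closed_walk [Fintype ι] (b b' b'' : ι) (h1 : Γ.Adj b b') (h2 : Γ.Adj b' b'') (h3 : Γ.Adj b'' b)
    (A : Finset ι) (φ : ι → ι) (hφ : ∀ s ∈ A, Γ.Adj s (φ s)) (hreach : ∀ s ∈ A, Γ.Reachable b s)
    (hinj : ∀ s ∈ A, ∀ s' ∈ A, φ s = φ s' → s = s') (N ℓ : ℕ) (hℓ3 : 3 ≤ ℓ)
    (hℓ : ℓ ≤ 2 * (A.card * N)) :
    ∃ p : Γ.Walk b b, p.length = ℓ ∧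
      ∀ r, cnt Γ p r ≤ 2 * (Fintype.card ι) ^ 2 + 2 * N + 3 := by
  set k := Fintype.card ι with hk
  set D := 2 * (A.toList.map (Γ.dist b)).sum with hD
  have hDle : D ≤ 2 * k ^ 2 := by
    have h4 : (A.toList.map (Γ.dist b)).sum ≤ A.toList.length • k := by
      have := List.sum_le_card_nsmul (A.toList.map (Γ.dist b)) k (by
        intro x hx
        rw [List.mem_map] at hx
        obtain ⟨s, hs, rfl⟩ := hx
        exact dist_le_card Γ b s (hreach s (Finset.mem_toList.mp hs)))
      rwa [List.length_map] at this
    rw [Finset.length_toList, smul_eq_mul] at h4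
    have h5 : A.card ≤ k := Finset.card_le_univ A
    have h6 : A.card * k ≤ k * k := Nat.mul_le_mul_right k h5
    rw [hD, sq]
    omega
  -- the triangle
  set tri : Γ.Walk b b := Walk.cons h1 (Walk.cons h2 (Walk.cons h3 Walk.nil)) with htri
  have htril : tri.length = 3 := rfl
  rcases Nat.even_or_odd' ℓ with ⟨c, hc | hc⟩
  · by_cases hsmall : ℓ ≤ D + 3
    · refine ⟨bounce Γ h1 c, ?_, ?_⟩
      · rw [bounce_length]; omega
      · intro r
        have := cnt_le Γ (bounce Γ h1 c) r
        rw [bounce_length] at this
        omega
    · have hDeven : D = 2 * (A.toList.map (Γ.dist b)).sum := hD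
      obtain ⟨p, hp1, hp2⟩ := big_walk Γ b φ N A.toList A.nodup_toList
        (fun s hs => hφ s (Finset.mem_toList.mp hs)) (fun s hs => hreach s (Finset.mem_toList.mp hs))
        (fun s hs s' hs' => hinj s (Finset.mem_toList.mp hs) s' (Finset.mem_toList.mp hs'))
        (c - (A.toList.map (Γ.dist b)).sum) (by rw [Finset.length_toList]; omega)
      refine ⟨p, by omega, fun r => ?_⟩
      have h4 := hp2 r
      split_ifs at h4 <;> omega
  · by_cases hsmall : ℓ ≤ D + 3
    · refine ⟨tri.append (bounce Γ h1 (c - 1)), ?_, ?_⟩
      · rw [Walk.length_append, htril, bounce_length]; omega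
      · intro r
        have := cnt_le Γ (tri.append (bounce Γ h1 (c - 1))) r
        rw [Walk.length_append, htril, bounce_length] at this
        omega
    · obtain ⟨p, hp1, hp2⟩ := big_walk Γ b φ N A.toList A.nodup_toList
        (fun s hs => hφ s (Finset.mem_toList.mp hs)) (fun s hs => hreach s (Finset.mem_toList.mp hs))
        (fun s hs s' hs' => hinj s (Finset.mem_toList.mp hs) s' (Finset.mem_toList.mp hs'))
        (c - 1 - (A.toList.map (Γ.dist b)).sum) (by rw [Finset.length_toList]; omega)
      refine ⟨tri.append p, ?_, fun r => ?_⟩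
      · rw [Walk.length_append, htril, hp1]; omega
      · rw [cnt_append]
        have h4 := hp2 r
        have h5 := cnt_le Γ tri r
        rw [htril] at h5
        split_ifs at h4 <;> omega

end

end Pool.Agent.H219R2.Cyc
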