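import Mathlib
import Pool.Agent.H219R2.Cyc.Walks
import Pool.Agent.H219R2.Cyc.Cover
import Pool.Agent.H219R2.Cyc.Reg
import Pool.Agent.H219R2.Cyc.Transfer
import Pool.Agent.H219R2.Cyc.Case2
import Pool.Agent.H219R2.Cyc.NearMain

set_option autoImplicit false

namespace Pool.Agent.H219R2.Cyc

open Finset Pool.Agent.Helper91.EC

theorem num_case1 (n k : ℕ) (hk : 0 < k) (η : ℝ) (hη : 0 < η) (hη1 : η ≤ 1 / 100) (q Q N : ℕ)
    (hq : (q : ℝ) ≤ ((n / k + 1 : ℕ) : ℝ) * η ^ 2 + 1) (hQ : (Q : ℝ) ≤ 2 * q / η + 1)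
    (hN : N = (n / k - Q - q - 2 * k ^ 2 - 4) / 2)
    (hlarge : (k : ℝ) * (20 + 2 / η) + 2 * (k : ℝ) ^ 3 ≤ η * n) :
    Q + q + 1 + (2 * k ^ 2 + 2 * N + 3) ≤ n / k ∧ (1 - 4 * η) * n ≤ 2 * (k * N : ℝ) := by
  have hk0 : (0:ℝ) < k := by exact_mod_cast hk
  have h1 : k * (n / k) ≤ n := Nat.mul_div_le n k
  have h2 : n < k * (n / k + 1) := by
    have := Nat.lt_mul_div_succ n hk
    exact this
  obtain ⟨m, hm⟩ : ∃ m, m = n / k := ⟨_, rfl⟩
  rw [← hm] at h1 h2 hq hN ⊢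
  have h1' : (k : ℝ) * m ≤ n := by exact_mod_cast h1
  have h2' : (n : ℝ) ≤ k * (m + 1) := by exact_mod_cast h2.le
  push_cast at hq
  have hn0 : (0:ℝ) ≤ n := Nat.cast_nonneg _
  have e1 : (k : ℝ) * q ≤ (n + k) * η ^ 2 + k := by
    calc (k : ℝ) * q ≤ k * ((m + 1) * η ^ 2 + 1) := mul_le_mul_of_nonneg_left hq hk0.le
      _ = (k * m + k) * η ^ 2 + k := by ring
      _ ≤ (n + k) * η ^ 2 + k := by
          have : (k * m + k) * η ^ 2 ≤ (n + k) * η ^ 2 :=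
            mul_le_mul_of_nonneg_right (by linarith) (sq_nonneg _)
          linarith
  have e2 : (k : ℝ) * Q ≤ 2 * (n + k) * η + 2 * k / η + k := by
    calc (k : ℝ) * Q ≤ k * (2 * q / η + 1) := mul_le_mul_of_nonneg_left hQ hk0.le
      _ = 2 / η * (k * q) + k := by ring
      _ ≤ 2 / η * ((n + k) * η ^ 2 + k) + k := by
          have : 2 / η * (k * q) ≤ 2 / η * ((n + k) * η ^ 2 + k) :=
            mul_le_mul_of_nonneg_left e1 (by positivity)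
          linarith
      _ = _ := by field_simp
  have e3 : (k : ℝ) * (Q + q + 2 * k ^ 2 + 6) ≤ 4 * η * n := by
    have hη2 : η ^ 2 ≤ η := by nlinarith
    have a1 : (n + k : ℝ) * η ^ 2 ≤ (n + k) * η := mul_le_mul_of_nonneg_left hη2 (by positivity)
    have a2 : (k : ℝ) * η ≤ k * (1 / 100) := mul_le_mul_of_nonneg_left hη1 hk0.le
    have a3 : (k : ℝ) * (20 + 2 / η) = 20 * k + 2 * k / η := by ring
    rw [a3] at hlarge
    calc (k : ℝ) * (Q + q + 2 * k ^ 2 + 6) = k * Q + k * q + 2 * (k : ℝ) ^ 3 + 6 * k := by ring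
      _ ≤ (2 * (n + k) * η + 2 * k / η + k) + ((n + k) * η ^ 2 + k) + 2 * (k : ℝ) ^ 3 + 6 * k := by
          linarith
      _ ≤ 4 * η * n := by
          have : (2 * (n + k) * η : ℝ) = 2 * (n * η) + 2 * (k * η) := by ring
          have h4 : ((n + k) * η : ℝ) = n * η + k * η := by ring
          nlinarith
  have e4 : (1 - 4 * η) * n ≤ k * ((m : ℝ) - Q - q - 2 * k ^ 2 - 5) := by nlinarith
  have e5 : Q + q + 2 * k ^ 2 + 5 ≤ m := by
    have h5 : 0 ≤ (1 - 4 * η) * n := mul_nonneg (by linarith) hn0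
    have h6 : 0 ≤ k * ((m : ℝ) - Q - q - 2 * k ^ 2 - 5) := h5.trans e4
    have h7 : 0 ≤ (m : ℝ) - Q - q - 2 * k ^ 2 - 5 := nonneg_of_mul_nonneg_right h6 hk0
    have h8 : ((Q + q + 2 * k ^ 2 + 5 : ℕ) : ℝ) ≤ m := by push_cast; linarith
    exact_mod_cast h8
  have e6 : 2 * N ≤ m - Q - q - 2 * k ^ 2 - 4 := by omega
  have e7 : m ≤ 2 * N + (Q + q + 2 * k ^ 2 + 5) := by omega
  refine ⟨by omega, ?_⟩
  have e8 : (m : ℝ) ≤ 2 * N + (Q + q + 2 * k ^ 2 + 5) := by exact_mod_cast e7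
  calc (1 - 4 * η) * n ≤ k * ((m : ℝ) - Q - q - 2 * k ^ 2 - 5) := e4
    _ ≤ k * (2 * N) := mul_le_mul_of_nonneg_left (by linarith) hk0.le
    _ = _ := by ring

theorem lam_lower (n : ℕ) (L : ℝ) (hL : √((n ^ 2 / 4 : ℕ) : ℝ) < L) : ((n : ℝ) - 1) / 2 ≤ L := by
  have h0 : 0 < L := lt_of_le_of_lt (Real.sqrt_nonneg _) hL
  have h1 := Real.sqrt_lt' h0 |>.mp hL
  have h2 : ((n : ℝ)) ^ 2 ≤ 4 * ((n ^ 2 / 4 : ℕ) : ℝ) + 1 := by exact_mod_cast four_mul_sq_div n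
  by_contra hc
  push Not at hc
  nlinarith

section

variable {V : Type} [Fintype V] [DecidableEq V] (G : SimpleGraph V) [DecidableRel G.Adj]

/-- the nearly bipartite case, from the reduced graph -/
theorem case2 {ι : Type} [Fintype ι] [DecidableEq ι] (Γ : SimpleGraph ι) (π : V → ι) (E : Finset (V × V))
    (hn : 10 ^ 9 ≤ Fintype.card V) (m1 δ : ℝ) (hδ0 : 0 < δ)
    (hm1 : ∀ i, ((Finset.univ.filter fun v => π v = i).card : ℝ) ≤ m1)
    (hm2 : m1 * Fintype.card ι ≤ 2 * Fintype.card V)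
    (hE : ∀ v w, G.Adj v w → (v, w) ∉ E → Γ.Adj (π v) (π w))
    (hEc : (E.card : ℝ) ≤ δ * (Fintype.card V : ℝ) ^ 2) (hδ : 81 * δ ≤ (1 / 10 ^ 9) ^ 2)
    (X : Finset ι) (F : Finset (ι × ι)) (hF : ∀ i j, Γ.Adj i j → (i ∈ X ↔ j ∈ X) → (i, j) ∈ F)
    (hFc : (F.card : ℝ) ≤ 20 * δ * (Fintype.card ι : ℝ) ^ 2)
    (hlam : √(((Fintype.card V) ^ 2 / 4 : ℕ) : ℝ) < lam G)
    (ℓ : ℕ) (h3 : 3 ≤ ℓ) (hℓ : (ℓ : ℝ) ≤ 0.385 * Fintype.card V) :
    ∃ l : List V, l.length = ℓ ∧ CycList G l := by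
  classical
  set E2 := Finset.univ.filter fun p : V × V => (π p.1, π p.2) ∈ F with hE2
  have hm0 : 0 ≤ m1 := by
    by_cases hι : Nonempty ι
    · exact le_trans (Nat.cast_nonneg _) (hm1 hι.some)
    · have : Nonempty V := Fintype.card_pos_iff.mp (by omega)
      exact (hι ⟨π this.some⟩).elim
  have hE2c : (E2.card : ℝ) ≤ F.card * (m1 * m1) := by
    have h1 : E2.card = ∑ p ∈ F, (E2.filter fun e => (π e.1, π e.2) = p).card :=
      Finset.card_eq_sum_card_fiberwise (f := fun e : V × V => (π e.1, π e.2)) (t := F)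
        (fun e he => by
          rw [Finset.mem_coe, hE2, Finset.mem_filter] at he
          exact Finset.mem_coe.mpr he.2)
    rw [h1, Nat.cast_sum, ← nsmul_eq_mul]
    apply Finset.sum_le_card_nsmul
    rintro ⟨i, j⟩ _
    have h2 : (E2.filter fun e => (π e.1, π e.2) = (i, j)) ⊆
        (Finset.univ.filter fun v => π v = i) ×ˢ (Finset.univ.filter fun v => π v = j) := by
      intro e he
      rw [Finset.mem_filter, Prod.mk.injEq] at he
      rw [Finset.mem_product, Finset.mem_filter, Finset.mem_filter]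
      exact ⟨⟨Finset.mem_univ _, he.2.1⟩, ⟨Finset.mem_univ _, he.2.2⟩⟩
    have h3 := Finset.card_le_card h2
    rw [Finset.card_product] at h3
    calc ((E2.filter fun e => (π e.1, π e.2) = (i, j)).card : ℝ) ≤
        ((Finset.univ.filter fun v => π v = i).card : ℝ) *
          (Finset.univ.filter fun v => π v = j).card := by exact_mod_cast h3
      _ ≤ m1 * m1 := mul_le_mul (hm1 i) (hm1 j) (Nat.cast_nonneg _) hm0
  have hcard : ((E ∪ E2).card : ℝ) ≤ (1 / 10 ^ 9 * (Fintype.card V : ℝ)) ^ 2 := by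
    have h1 : ((E ∪ E2).card : ℝ) ≤ E.card + E2.card := by exact_mod_cast Finset.card_union_le _ _
    have h2 : (F.card : ℝ) * (m1 * m1) ≤ 20 * δ * (Fintype.card ι : ℝ) ^ 2 * (m1 * m1) :=
      mul_le_mul_of_nonneg_right hFc (mul_nonneg hm0 hm0)
    have h3 : (m1 * Fintype.card ι) ^ 2 ≤ (2 * Fintype.card V) ^ 2 :=
      pow_le_pow_left₀ (by positivity) hm2 2
    have h4 : 20 * δ * (Fintype.card ι : ℝ) ^ 2 * (m1 * m1) ≤ 80 * δ * (Fintype.card V : ℝ) ^ 2 := by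
      calc 20 * δ * (Fintype.card ι : ℝ) ^ 2 * (m1 * m1) = 20 * δ * (m1 * Fintype.card ι) ^ 2 := by ring
        _ ≤ 20 * δ * (2 * Fintype.card V) ^ 2 := mul_le_mul_of_nonneg_left h3 (by positivity)
        _ = _ := by ring
    have h5 : 81 * δ * (Fintype.card V : ℝ) ^ 2 ≤ (1 / 10 ^ 9) ^ 2 * (Fintype.card V : ℝ) ^ 2 :=
      mul_le_mul_of_nonneg_right hδ (sq_nonneg _)
    rw [mul_pow]
    linarith
  refine near_bip G (Finset.univ.filter fun v => π v ∈ X) (E ∪ E2) hn ?_ hcard hlam ℓ h3 hℓ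
  intro v w hvw hiff
  rw [Finset.mem_union]
  by_cases hvE : (v, w) ∈ E
  · exact Or.inl hvE
  · right
    rw [hE2, Finset.mem_filter]
    refine ⟨Finset.mem_univ _, hF _ _ (hE v w hvw hvE) ?_⟩
    simpa using hiff

/-- the case of a component with a triangle -/
theorem case1 {ι : Type} [Fintype ι] [DecidableEq ι] (Γ : SimpleGraph ι) (π : V → ι)
    (c ε η : ℝ) (hc : c ^ 2 = 3 * c - 1) (hc1 : 0.38 < c) (hc2 : c < 0.382) (hε : 0 < ε) (hεc : ε < c)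
    (hη : 0 < η) (hη1 : η ≤ 1 / 100) (hηε : η ≤ ε / 4)
    (hk : 0 < Fintype.card ι)
    (hlarge : (Fintype.card ι : ℝ) * (20 + 2 / η) + 2 * (Fintype.card ι : ℝ) ^ 3 ≤
      η * Fintype.card V)
    (hm : ∀ i, Fintype.card V / Fintype.card ι ≤ (Finset.univ.filter fun v => π v = i).card)
    (hR : ∀ i j, Γ.Adj i j → ∀ q : ℕ, 1 ≤ q →
        ((Fintype.card V / Fintype.card ι + 1 : ℕ) : ℝ) * η ^ 2 ≤ q →
        Good G q η (Finset.univ.filter fun v => π v = i) (Finset.univ.filter fun v => π v = j))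
    (b b' b'' : ι) (h1 : Γ.Adj b b') (h2 : Γ.Adj b' b'') (h3 : Γ.Adj b'' b)
    (A : Finset ι) (φ : ι → ι) (hφ : ∀ s ∈ A, Γ.Adj s (φ s)) (hreach : ∀ s ∈ A, Γ.Reachable b s)
    (hinj : ∀ s ∈ A, ∀ s' ∈ A, φ s = φ s' → s = s')
    (hA : (c - ε / 2) * Fintype.card ι ≤ A.card)
    (ℓ : ℕ) (hℓ3 : 3 ≤ ℓ) (hℓ : (ℓ : ℝ) ≤ (c - ε) * Fintype.card V) :
    ∃ l : List V, l.length = ℓ ∧ CycList G l := by
  obtain ⟨n, hn⟩ : ∃ n, n = Fintype.card V := ⟨_, rfl⟩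
  obtain ⟨k, hkk⟩ : ∃ k, k = Fintype.card ι := ⟨_, rfl⟩
  rw [← hkk] at hk hlarge hA
  rw [← hn] at hlarge hℓ
  simp only [← hn, ← hkk] at hm hR
  set q : ℕ := ⌊((n / k + 1 : ℕ) : ℝ) * η ^ 2⌋₊ + 1 with hq
  set Q : ℕ := ⌊2 * (q : ℝ) / η⌋₊ + 1 with hQ
  set N : ℕ := (n / k - Q - q - 2 * k ^ 2 - 4) / 2 with hN
  have hq1 : 1 ≤ q := by omega
  have hqle : (q : ℝ) ≤ ((n / k + 1 : ℕ) : ℝ) * η ^ 2 + 1 := by
    rw [hq]; push_cast
    have := Nat.floor_le (a := ((n / k + 1 : ℕ) : ℝ) * η ^ 2) (by positivity)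
    push_cast at this
    linarith
  have hqge : ((n / k + 1 : ℕ) : ℝ) * η ^ 2 ≤ q := by
    have := (Nat.lt_floor_add_one (((n / k + 1 : ℕ) : ℝ) * η ^ 2)).le
    rw [hq]; push_cast at this ⊢
    exact this
  have hQle : (Q : ℝ) ≤ 2 * q / η + 1 := by
    rw [hQ]; push_cast
    have := Nat.floor_le (a := 2 * (q : ℝ) / η) (by positivity)
    linarith
  have hQge : 2 * (q : ℝ) / η ≤ Q := by
    have := (Nat.lt_floor_add_one (2 * (q : ℝ) / η)).le
    rw [hQ]; push_cast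
    exact this
  have hQ2 : (2 * q : ℝ) ≤ η * Q := by
    rw [div_le_iff₀ hη] at hQge; linarith
  have hqQ : q ≤ Q := by
    have h4 : (q : ℝ) ≤ Q := by
      have hq0 : (0:ℝ) ≤ q := Nat.cast_nonneg _
      have hQ0 : (0:ℝ) ≤ Q := Nat.cast_nonneg _
      have : η * Q ≤ 1 * Q := mul_le_mul_of_nonneg_right (by linarith) hQ0
      linarith
    exact_mod_cast h4
  obtain ⟨r1, r2⟩ := num_case1 n k hk η hη hη1 q Q N hqle hQle hN hlarge
  have hlen : ℓ ≤ 2 * (A.card * N) := by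
    have e1 : (c - ε) * n ≤ (c - ε / 2) * ((1 - 4 * η) * n) := by
      have e2 : c - ε ≤ (c - ε / 2) * (1 - 4 * η) := by nlinarith
      calc (c - ε) * n ≤ ((c - ε / 2) * (1 - 4 * η)) * n :=
            mul_le_mul_of_nonneg_right e2 (Nat.cast_nonneg _)
        _ = _ := by ring
    have e3 : (c - ε / 2) * ((1 - 4 * η) * n) ≤ (c - ε / 2) * (2 * (k * N : ℝ)) :=
      mul_le_mul_of_nonneg_left r2 (by linarith)
    have e4 : (c - ε / 2) * (2 * (k * N : ℝ)) ≤ 2 * (A.card * N) := by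
      have := mul_le_mul_of_nonneg_right hA (Nat.cast_nonneg N : (0:ℝ) ≤ N)
      nlinarith
    have e5 : (ℓ : ℝ) ≤ ((2 * (A.card * N) : ℕ) : ℝ) := by push_cast; linarith
    exact_mod_cast e5
  obtain ⟨p, hp1, hp2⟩ := closed_walk Γ b b' b'' h1 h2 h3 A φ hφ hreach hinj N ℓ hℓ3 hlen
  obtain ⟨l, hl1, hl2⟩ := cycle_of_walk G (fun i => Finset.univ.filter fun v => π v = i)
    (fun i j hij => Finset.disjoint_filter.mpr fun v _ hv hv' => hij (hv.symm.trans hv'))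
    Γ q Q η (fun i j hij => hR i j hij q hq1 hqge) hη hq1 hqQ hQ2 b p (by omega) (by
      intro r
      have e1 := hp2 r
      have e2 := hm r
      unfold cnt at e1
      rw [← hkk] at e1
      omega)
  exact ⟨l, by omega, hl2⟩

end

end Pool.Agent.H219R2.Cyc
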