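import Mathlib
import Pool.Agent.H219R2.Cyc.Lower

set_option autoImplicit false

namespace Pool.Agent.H219R2.Cyc

open Finset Pool.Agent.Helper91.EC

theorem lower_main (c : ℝ) (hc : c ^ 2 = 3 * c - 1) (hc1 : 0.38 < c) (hc2 : c < 0.382) (ε : ℝ)
    (hε : 0 < ε) (hεc : ε < c) :
    ∃ n0 : ℕ, ∀ (V : Type) [Fintype V] [DecidableEq V] (G : SimpleGraph V) [DecidableRel G.Adj],
      n0 ≤ Fintype.card V → √(((Fintype.card V) ^ 2 / 4 : ℕ) : ℝ) < lam G →
      ∀ ℓ : ℕ, 3 ≤ ℓ → (ℓ : ℝ) ≤ (c - ε) * Fintype.card V →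
      ∃ l : List V, l.length = ℓ ∧ CycList G l := by
  obtain ⟨δ, hδ⟩ : ∃ δ : ℝ, δ = ε / 10 ^ 21 := ⟨_, rfl⟩
  have hδ0 : 0 < δ := by rw [hδ]; positivity
  have hδ1 : δ ≤ 1 / 10 ^ 21 := by rw [hδ]; linarith
  have hδε : 20 * δ < ε := by rw [hδ]; linarith
  obtain ⟨η, hη⟩ : ∃ η : ℝ, η = δ ^ 2 / 100 := ⟨_, rfl⟩
  have hη0 : 0 < η := by rw [hη]; positivity
  have hηδ : η ≤ δ / 100 := by rw [hη]; nlinarith
  set l : ℕ := ⌈4 / η⌉₊ with hl
  set M : ℕ := SzemerediRegularity.bound (η ^ 2) l with hM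
  obtain ⟨B, hB⟩ : ∃ B : ℝ, B = ((M : ℝ) * (20 + 2 / η) + 2 * (M : ℝ) ^ 3) / η + (M + 1) / δ := ⟨_, rfl⟩
  refine ⟨10 ^ 9 + l + ⌈B⌉₊, ?_⟩
  intro V _ _ G _ hn hlam ℓ h3 hℓ
  obtain ⟨n, hnn⟩ : ∃ n : ℝ, n = Fintype.card V := ⟨_, rfl⟩
  have hn9 : 10 ^ 9 ≤ Fintype.card V := by omega
  have hnl : l ≤ Fintype.card V := by omega
  have hnB : B ≤ n := by
    rw [hnn]
    refine (Nat.le_ceil B).trans ?_
    exact_mod_cast (by omega : ⌈B⌉₊ ≤ Fintype.card V)
  have hn0 : 0 < Fintype.card V := by omega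
  have hne : Nonempty V := Fintype.card_pos_iff.mp hn0
  have hnr9 : (10:ℝ) ^ 9 ≤ n := by rw [hnn]; exact_mod_cast hn9
  obtain ⟨ι, iF, iD, Γ, π, E, hk1, hk2, hk0, hf1, hf2, hR, hE, hEc⟩ :=
    reduced_exists G (η ^ 2) η (by positivity) hη0 (by nlinarith) l (Nat.le_ceil _) hnl hn0
  rw [← hM] at hk2
  rw [← hnn] at hEc
  obtain ⟨k, hkk⟩ : ∃ k : ℝ, k = Fintype.card ι := ⟨_, rfl⟩
  have hkM : k ≤ M := by rw [hkk]; exact_mod_cast hk2
  have hkpos : 0 < k := by rw [hkk]; exact_mod_cast hk0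
  have hM0 : (0:ℝ) ≤ M := Nat.cast_nonneg _
  have hlarge1 : (M : ℝ) * (20 + 2 / η) + 2 * (M : ℝ) ^ 3 ≤ η * n := by
    have h1 : ((M : ℝ) * (20 + 2 / η) + 2 * (M : ℝ) ^ 3) / η ≤ n := by
      have : (0:ℝ) ≤ (M + 1) / δ := by positivity
      linarith
    rw [div_le_iff₀ hη0] at h1
    linarith
  have hlarge : k * (20 + 2 / η) + 2 * k ^ 3 ≤ η * n := by
    refine le_trans ?_ hlarge1
    have h2 : 0 ≤ 20 + 2 / η := by positivity
    have h4 := mul_le_mul_of_nonneg_right hkM h2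
    have h5 := pow_le_pow_left₀ hkpos.le hkM 3
    linarith
  have hlarge2 : k + 1 ≤ δ * n := by
    have h1 : ((M : ℝ) + 1) / δ ≤ n := by
      have : (0:ℝ) ≤ ((M : ℝ) * (20 + 2 / η) + 2 * (M : ℝ) ^ 3) / η := by positivity
      linarith
    rw [div_le_iff₀ hδ0] at h1
    linarith
  -- transfer
  obtain ⟨m1, hm1⟩ : ∃ m1 : ℝ, m1 = ((Fintype.card V / Fintype.card ι + 1 : ℕ) : ℝ) := ⟨_, rfl⟩
  have hf2' : ∀ i, ((Finset.univ.filter fun v => π v = i).card : ℝ) ≤ m1 := by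
    intro i; rw [hm1]; exact_mod_cast hf2 i
  have hkm1 : k * m1 ≤ n + k := by
    rw [hkk, hm1, hnn]
    have : Fintype.card ι * (Fintype.card V / Fintype.card ι + 1) ≤ Fintype.card V + Fintype.card ι := by
      rw [Nat.mul_add, Nat.mul_one]
      exact Nat.add_le_add_right (Nat.mul_div_le _ _) _
    exact_mod_cast this
  have hm1pos : 0 < m1 := by rw [hm1]; positivity
  classical
  obtain ⟨y, hy0, hypos, hyt⟩ := transfer G Γ π E hE m1 _ hf2' hEc
  have hlamlow := lam_lower (Fintype.card V) (lam G) hlam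
  rw [← hnn] at hlamlow
  have hsq : √(13 * η * n ^ 2) ≤ δ * n / 2 := by
    apply Real.sqrt_le_iff.mpr
    constructor
    · positivity
    · have : 13 * η * n ^ 2 ≤ δ ^ 2 / 4 * n ^ 2 := by
        apply mul_le_mul_of_nonneg_right _ (sq_nonneg n)
        rw [hη]; nlinarith [sq_nonneg δ]
      nlinarith
  have hweight : (1 / 2 - δ) * Fintype.card ι * ∑ i, y i ^ 2 ≤
      ∑ i, ∑ j, (if Γ.Adj i j then y i * y j else 0) := by
    rw [← hkk]
    have h1 : (1 / 2 - δ) * k * m1 ≤ lam G - √(13 * η * n ^ 2) := by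
      have h2 : (1 / 2 - δ) * (k * m1) ≤ (1 / 2 - δ) * (n + k) :=
        mul_le_mul_of_nonneg_left hkm1 (by linarith)
      nlinarith
    have h3 : m1 * ((1 / 2 - δ) * k * ∑ i, y i ^ 2) ≤
        m1 * ∑ i, ∑ j, (if Γ.Adj i j then y i * y j else 0) := by
      refine le_trans ?_ hyt
      have := mul_le_mul_of_nonneg_right h1 hypos.le
      calc m1 * ((1 / 2 - δ) * k * ∑ i, y i ^ 2) = (1 / 2 - δ) * k * m1 * ∑ i, y i ^ 2 := by ring
        _ ≤ _ := this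
    exact le_of_mul_le_mul_left h3 hm1pos
  obtain ⟨b, K, hK, hb1, hb2⟩ := exists_component' Γ y hy0 hypos _ hweight
  have hKcl : ∀ i ∈ K, ∀ j, Γ.Adj i j → j ∈ K := by
    intro i hi j hij
    rw [hK] at hi ⊢
    exact hi.trans hij.reachable
  by_cases htri : ∃ a ∈ K, ∃ a' a'', Γ.Adj a a' ∧ Γ.Adj a' a'' ∧ Γ.Adj a'' a
  · obtain ⟨a, ha, a', a'', h1, h2, h3'⟩ := htri
    have har : Γ.Reachable b a := (hK a).mp ha
    obtain ⟨T, hT⟩ : ∃ T : ℕ, T = ⌊(c - ε / 2) * k⌋₊ + 1 := ⟨_, rfl⟩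
    have hck : 0 ≤ (c - ε / 2) * k := mul_nonneg (by linarith) hkpos.le
    rcases hall_cover K (fun s => K.filter (Γ.Adj s)) T with ⟨A, hAK, φ, hφ1, hφ2, hA⟩ | ⟨X, hXK, hX⟩
    · refine case1 G Γ π c ε η hc hc1 hc2 hε hεc hη0 (by linarith) (by linarith) hk0
        (by rw [← hkk, ← hnn]; exact hlarge) hf1 hR a a' a'' h1 h2 h3' A φ
        (fun s hs => (Finset.mem_filter.mp (hφ1 s hs)).2) (fun s hs => ?_) hφ2 ?_ ℓ h3 hℓ
      · exact har.symm.trans ((hK s).mp (hAK hs))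
      · rw [← hkk]
        have := (Nat.lt_floor_add_one ((c - ε / 2) * k)).le
        refine this.trans ?_
        have h4 : ((⌊(c - ε / 2) * k⌋₊ + 1 : ℕ) : ℝ) ≤ A.card := by
          rw [← hT]; exact_mod_cast hA
        push_cast at h4
        exact h4
    · exfalso
      have hcov : (K.card : ℝ) + (X.biUnion fun s => K.filter (Γ.Adj s)).card - X.card ≤
          (c - ε / 2) * Fintype.card ι := by
        rw [← hkk]
        have h4 := Nat.floor_le hck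
        have h5 : K.card + (X.biUnion fun s => K.filter (Γ.Adj s)).card ≤
            ⌊(c - ε / 2) * k⌋₊ + X.card := by omega
        have h6 : (K.card : ℝ) + (X.biUnion fun s => K.filter (Γ.Adj s)).card ≤
            ⌊(c - ε / 2) * k⌋₊ + X.card := by exact_mod_cast h5
        linarith
      have h7 := cover_quad Γ K X hXK y hy0 c (ε / 2) (1 / 2 - ε / 2 / 6) hc hc1 hc2 le_rfl
        (by linarith) (by linarith) (by linarith) (by convert hcov) hk0
      rw [← hkk] at h7 hb2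
      have h8 : (1 / 2 - δ) * k * ∑ i ∈ K, y i ^ 2 ≤ (1 / 2 - ε / 2 / 6) * k * ∑ i ∈ K, y i ^ 2 := by
        exact hb2.trans h7
      have h9 := le_of_mul_le_mul_right h8 hb1
      have h10 := le_of_mul_le_mul_right h9 hkpos
      linarith
  · have htf : ∀ a ∈ K, ∀ b c, Γ.Adj a b → Γ.Adj b c → Γ.Adj c a → False := by
      intro a ha b c h1 h2 h3
      exact htri ⟨a, ha, b, c, h1, h2, h3⟩
    obtain ⟨X, F, hF, hFc⟩ := near_of_triangleFree Γ K hKcl htf y hb1 δ hδ0 (by linarith)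
      (by convert hb2)
    refine case2 G Γ π E hn9 m1 δ hδ0 hf2' ?_ hE ?_ ?_ X F hF hFc hlam ℓ h3 ?_
    · rw [← hkk, ← hnn]
      have : δ * n ≤ 1 * n := mul_le_mul_of_nonneg_right (by linarith) (by linarith)
      linarith
    · rw [← hnn]
      refine hEc.trans (mul_le_mul_of_nonneg_right (by linarith) (sq_nonneg n))
    · refine (mul_le_mul_of_nonneg_left hδ1 (by norm_num)).trans ?_
      norm_num
    · rw [← hnn] at hℓ ⊢
      refine hℓ.trans (mul_le_mul_of_nonneg_right (by linarith) (by linarith))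

end Pool.Agent.H219R2.Cyc
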