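import Mathlib
import Pool.Agent.Helper91.EC.Spec

set_option autoImplicit false

namespace Pool.Agent.H219R2.Cyc

open Finset Pool.Agent.Helper91.EC SimpleGraph

/-- the graph `K_s ∨ (n-s)K_1` -/
def joinG (n s : ℕ) : SimpleGraph (Fin n) where
  Adj i j := i ≠ j ∧ (i.val < s ∨ j.val < s)
  symm := ⟨fun _ _ h => ⟨h.1.symm, h.2.symm⟩⟩
  loopless := ⟨fun _ h => h.1 rfl⟩

theorem joinG_cycle (n s ℓ : ℕ) (hℓ : 3 ≤ ℓ) (h : (cycleGraph ℓ) ⊑ joinG n s) : ℓ ≤ 2 * s := by
  obtain ⟨m, rfl⟩ : ∃ m, ℓ = m + 2 := ⟨ℓ - 2, by omega⟩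
  obtain ⟨f⟩ := h
  set J : Finset (Fin (m + 2)) := Finset.univ.filter fun i => (f i).val < s with hJ
  have hJs : J.card ≤ s := by
    have h1 : J.card ≤ (Finset.range s).card := by
      apply Finset.card_le_card_of_injOn (fun i => (f i).val)
      · intro i hi
        rw [Finset.mem_coe, hJ, Finset.mem_filter] at hi
        rw [Finset.mem_coe, Finset.mem_range]
        exact hi.2
      · intro i _ j _ hij
        exact f.injective (Fin.ext hij)
    rwa [Finset.card_range] at h1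
  have hcov : (Finset.univ : Finset (Fin (m + 2))) ⊆ J ∪ J.image (fun i => i - 1) := by
    intro i _
    rw [Finset.mem_union]
    have hadj : (cycleGraph (m + 2)).Adj (i + 1) i := by
      rw [cycleGraph_adj]; left; exact add_sub_cancel_left i 1
    have h2 := f.toHom.map_adj hadj
    have h3 : (f (i + 1)).val < s ∨ (f i).val < s := h2.2
    rcases h3 with h3 | h3
    · right
      rw [Finset.mem_image]
      exact ⟨i + 1, by rw [hJ, Finset.mem_filter]; exact ⟨Finset.mem_univ _, h3⟩,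
        add_sub_cancel_right i 1⟩
    · left
      rw [hJ, Finset.mem_filter]; exact ⟨Finset.mem_univ _, h3⟩
  have h4 := (Finset.card_le_card hcov).trans (Finset.card_union_le _ _)
  have h5 := Finset.card_image_le (s := J) (f := fun i => i - 1)
  rw [Finset.card_univ, Fintype.card_fin] at h4
  omega

theorem sum_two (n s : ℕ) (hs : s ≤ n) (a b : ℝ) :
    ∑ i : Fin n, (if i.val < s then a else b) = s * a + (n - s) * b := by
  have h1 : (Finset.univ.filter fun i : Fin n => i.val < s).card = s := by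
    rw [Fin.card_filter_val_lt, min_eq_right hs]
  have h2 : (Finset.univ.filter fun i : Fin n => ¬ i.val < s).card = n - s := by
    have := Finset.card_filter_add_card_filter_not (s := (Finset.univ : Finset (Fin n)))
      (fun i : Fin n => i.val < s)
    rw [h1, Finset.card_univ, Fintype.card_fin] at this
    omega
  rw [Finset.sum_ite, Finset.sum_const, Finset.sum_const, h1, h2, nsmul_eq_mul, nsmul_eq_mul,
    Nat.cast_sub hs]

theorem joinG_lam (n s : ℕ) (hs0 : 0 < s) (hs : s ≤ n)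
    (hF : 0 < 6 * (n : ℝ) * s - 4 * (s : ℝ) ^ 2 - (n : ℝ) ^ 2 - 2 * n) :
    (n : ℝ) / 2 < lam (joinG n s) := by
  classical
  have hn0 : 0 < n := by omega
  have : Nonempty (Fin n) := ⟨⟨0, hn0⟩⟩
  have hsr : (0:ℝ) < s := by exact_mod_cast hs0
  have hnr : (0:ℝ) < n := by exact_mod_cast hn0
  obtain ⟨a, ha⟩ : ∃ a : ℝ, a = n / (2 * s) := ⟨_, rfl⟩
  have has : a * s = n / 2 := by rw [ha]; field_simp
  set x : Fin n → ℝ := fun i => if i.val < s then a else 1 with hx
  have hsum : ∑ i, x i = s * a + (n - s) * 1 := sum_two n s hs a 1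
  have hnb : ∀ i, nb (joinG n s) x i = if i.val < s then (s * a + (n - s) * 1) - a else s * a := by
    intro i
    unfold nb
    by_cases hi : i.val < s
    · rw [if_pos hi]
      have e1 : ∀ j, (if (joinG n s).Adj i j then x j else 0) = x j - (if j = i then a else 0) := by
        intro j
        by_cases hj : j = i
        · subst hj
          have : x j = a := by simp only [hx, if_pos hi]
          simp [this]
        · have : (joinG n s).Adj i j := ⟨Ne.symm hj, Or.inl hi⟩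
          rw [if_pos this, if_neg hj, sub_zero]
      rw [Finset.sum_congr rfl fun j _ => e1 j, Finset.sum_sub_distrib, hsum]
      simp
    · rw [if_neg hi]
      have e1 : ∀ j, (if (joinG n s).Adj i j then x j else 0) = if j.val < s then a else 0 := by
        intro j
        by_cases hj : j.val < s
        · have hne : i ≠ j := fun h => hi (h ▸ hj)
          have : (joinG n s).Adj i j := ⟨hne, Or.inr hj⟩
          rw [if_pos this, if_pos hj]
          simp only [hx, if_pos hj]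
        · have : ¬ (joinG n s).Adj i j := fun h => h.2.elim hi hj
          rw [if_neg this, if_neg hj]
      rw [Finset.sum_congr rfl fun j _ => e1 j, sum_two n s hs a 0]
      ring
  have hQ : Q (joinG n s) x = s * (a * ((s * a + (n - s) * 1) - a)) + (n - s) * (s * a) := by
    unfold Q
    have e1 : ∀ i, x i * nb (joinG n s) x i =
        if i.val < s then a * ((s * a + (n - s) * 1) - a) else (s * a) := by
      intro i
      rw [hnb i]
      simp only [hx]
      split_ifs <;> ring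
    rw [Finset.sum_congr rfl fun i _ => e1 i, sum_two n s hs]
  have hS : S2 x = s * a ^ 2 + (n - s) * 1 := by
    unfold S2
    have e1 : ∀ i, x i ^ 2 = if i.val < s then a ^ 2 else 1 := by
      intro i
      simp only [hx]
      split_ifs <;> ring
    rw [Finset.sum_congr rfl fun i _ => e1 i, sum_two n s hs]
  have hR := rayleigh (joinG n s) x
  rw [hQ, hS] at hR
  have hsn : (s : ℝ) ≤ n := by exact_mod_cast hs
  have ha0 : 0 < a := by rw [ha]; positivity
  have hSpos : 0 < s * a ^ 2 + (n - s) * (1:ℝ) := by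
    have : 0 < s * a ^ 2 := by positivity
    linarith
  have hkey : (n : ℝ) / 2 * (s * a ^ 2 + (n - s) * 1) <
      s * (a * ((s * a + (n - s) * 1) - a)) + (n - s) * (s * a) := by
    have e1 : s * (a * ((s * a + (n - s) * 1) - a)) + (n - s) * (s * a) -
        (n : ℝ) / 2 * (s * a ^ 2 + (n - s) * 1) =
        (n : ℝ) / (8 * s) * (6 * (n : ℝ) * s - 4 * (s : ℝ) ^ 2 - (n : ℝ) ^ 2 - 2 * n) := by
      rw [ha]
      field_simp
      ring
    have e2 : 0 < (n : ℝ) / (8 * s) * (6 * (n : ℝ) * s - 4 * (s : ℝ) ^ 2 - (n : ℝ) ^ 2 - 2 * n) :=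
      mul_pos (by positivity) hF
    linarith
  have h1 : (n : ℝ) / 2 * (s * a ^ 2 + (n - s) * 1) <
      lam (joinG n s) * (s * a ^ 2 + (n - s) * 1) := lt_of_lt_of_le hkey hR
  exact lt_of_mul_lt_mul_right h1 hSpos.le

theorem joinG_example (c C' : ℝ) (hc : c ^ 2 = 3 * c - 1) (hc1 : 0.38 < c) (hc2 : c < 0.382)
    (hC : c < C') (n0 : ℕ) :
    ∃ (n : ℕ) (G : SimpleGraph (Fin n)) (ℓ : ℕ), n0 ≤ n ∧ √((n ^ 2 / 4 : ℕ) : ℝ) < lam G ∧ 3 ≤ ℓ ∧
      (ℓ : ℝ) ≤ C' * n ∧ ¬ (cycleGraph ℓ) ⊑ G := by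
  obtain ⟨n, hn⟩ : ∃ n : ℕ, n = n0 + 10 + ⌈6 / (C' - c)⌉₊ := ⟨_, rfl⟩
  have hn0 : n0 ≤ n := by omega
  have hn10 : (10:ℝ) ≤ n := by exact_mod_cast (by omega : 10 ≤ n)
  have hnC : 6 ≤ (C' - c) * n := by
    have h1 : 6 / (C' - c) ≤ n := (Nat.le_ceil _).trans (by exact_mod_cast (by omega : ⌈6 / (C' - c)⌉₊ ≤ n))
    rw [div_le_iff₀ (by linarith)] at h1
    linarith
  obtain ⟨s, hs⟩ : ∃ s : ℕ, s = ⌊c * n / 2⌋₊ + 2 := ⟨_, rfl⟩
  have hcn : 0 ≤ c * n / 2 := by positivity
  have hs1 : (s : ℝ) ≤ c * n / 2 + 2 := by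
    rw [hs]; push_cast; linarith [Nat.floor_le hcn]
  have hs2 : c * n / 2 + 1 ≤ s := by
    rw [hs]; push_cast; linarith [Nat.lt_floor_add_one (c * n / 2)]
  have hsn : s ≤ n := by
    have : (s : ℝ) ≤ n := by nlinarith
    exact_mod_cast this
  obtain ⟨ℓ, hℓ⟩ : ∃ ℓ : ℕ, ℓ = ⌊C' * n⌋₊ := ⟨_, rfl⟩
  have hCn : 0 ≤ C' * n := mul_nonneg (by linarith) (by linarith)
  have hℓ1 : (ℓ : ℝ) ≤ C' * n := by rw [hℓ]; exact Nat.floor_le hCn
  have hℓ2 : C' * n - 1 < ℓ := by rw [hℓ]; linarith [Nat.lt_floor_add_one (C' * n)]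
  have hℓs : 2 * s < ℓ := by
    have : ((2 * s : ℕ) : ℝ) < ℓ := by push_cast; linarith
    exact_mod_cast this
  refine ⟨n, joinG n s, ℓ, hn0, ?_, by omega, hℓ1, fun h => ?_⟩
  · have hF : 0 < 6 * (n : ℝ) * s - 4 * (s : ℝ) ^ 2 - (n : ℝ) ^ 2 - 2 * n := by
      obtain ⟨t, ht⟩ : ∃ t : ℝ, (s : ℝ) = c * n / 2 + t := ⟨s - c * n / 2, by ring⟩
      have ht1 : 1 ≤ t := by linarith
      have ht2 : t ≤ 2 := by linarith
      rw [ht]
      have e1 : 6 * (n : ℝ) * (c * n / 2 + t) - 4 * (c * n / 2 + t) ^ 2 - (n : ℝ) ^ 2 - 2 * n =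
          (n : ℝ) ^ 2 * (3 * c - 1 - c ^ 2) + n * t * (6 - 4 * c) - 4 * t ^ 2 - 2 * n := by ring
      rw [e1, hc]
      have e2 : (n : ℝ) * 1 ≤ n * t := mul_le_mul_of_nonneg_left ht1 (by linarith)
      nlinarith
    refine lt_of_le_of_lt ?_ (joinG_lam n s (by omega) hsn hF)
    rw [Real.sqrt_le_left (by positivity)]
    have := @Nat.cast_div_le ℝ _ _ _ (n ^ 2) 4
    push_cast at this
    nlinarith
  · have := joinG_cycle n s ℓ (by omega) h
    omega

end Pool.Agent.H219R2.Cyc
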